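import Pool.Agent.R640.GE.Elec

set_option autoImplicit false

namespace Pool.R640.GE

open Monoid

universe u w

variable {V : Type u} {Γ : SimpleGraph V} {G : V → Type w} [∀ v, Group (G v)]

variable (Γ) in
/-- vertices with a non-neighbour -/
def V1 : Set V := {v | ∃ u, Γᶜ.Adj v u}

theorem cov_walk {a : V} (S : Finset V) (h : ∀ w ∈ S, Γᶜ.Reachable a w) :
    ∃ c : Γᶜ.Walk a a, ∀ w ∈ S, w ∈ c.support := by
  classical
  induction S using Finset.induction_on with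
  | empty => exact ⟨SimpleGraph.Walk.nil, by simp⟩
  | insert x S _ ih =>
    obtain ⟨c, hc⟩ := ih (fun w hw => h w (Finset.mem_insert_of_mem hw))
    obtain ⟨q⟩ := h x (Finset.mem_insert_self _ _)
    refine ⟨(q.append q.reverse).append c, ?_⟩
    intro w hw
    rw [Finset.mem_insert] at hw
    rw [SimpleGraph.Walk.mem_support_append_iff, SimpleGraph.Walk.mem_support_append_iff]
    rcases hw with rfl | hw
    · exact Or.inl (Or.inl (SimpleGraph.Walk.end_mem_support q))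
    · exact Or.inr (hc w hw)

theorem seq_exists [Finite V] {a b : V} (hab : Γᶜ.Adj a b)
    (hc : ∀ w ∈ V1 Γ, Γᶜ.Reachable a w) :
    ∃ (v : ℕ → V) (l : ℕ), 0 < l ∧ v 0 = a ∧ v 1 = b ∧ (∀ n, Γᶜ.Adj (v n) (v (n + 1))) ∧
      ∀ w ∈ V1 Γ, ∀ n, ∃ j, n < j ∧ j < n + l ∧ v j = w := by
  classical
  obtain ⟨c, hcc⟩ := cov_walk (Γ := Γ) (a := a) (Set.toFinite (V1 Γ)).toFinset
    (fun w hw => hc w ((Set.Finite.mem_toFinset _).mp hw))
  let c1 : Γᶜ.Walk a a := SimpleGraph.Walk.cons hab (SimpleGraph.Walk.cons hab.symm c)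
  have hm : 2 ≤ c1.length := by
    simp only [c1, SimpleGraph.Walk.length_cons]
    omega
  set m := c1.length with hmdef
  have hend : c1.getVert m = a := c1.getVert_length
  have hz : c1.getVert 0 = a := c1.getVert_zero
  refine ⟨fun n => c1.getVert (n % m), 2 * m, by omega, ?_, ?_, ?_, ?_⟩
  · show c1.getVert (0 % m) = a
    rw [Nat.zero_mod, hz]
  · show c1.getVert (1 % m) = b
    rw [Nat.mod_eq_of_lt (by omega)]
    show (SimpleGraph.Walk.cons hab (SimpleGraph.Walk.cons hab.symm c)).getVert (0 + 1) = b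
    rw [SimpleGraph.Walk.getVert_cons_succ, SimpleGraph.Walk.getVert_zero]
  · intro n
    show Γᶜ.Adj (c1.getVert (n % m)) (c1.getVert ((n + 1) % m))
    have hi : n % m < m := Nat.mod_lt _ (by omega)
    have h1 := c1.adj_getVert_succ hi
    by_cases h : n % m + 1 < m
    · have : (n + 1) % m = n % m + 1 := by
        rw [Nat.add_mod, Nat.mod_eq_of_lt (by omega : 1 < m), Nat.mod_eq_of_lt h]
      rw [this]
      exact h1
    · have h' : n % m + 1 = m := by omega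
      have : (n + 1) % m = 0 := by
        rw [Nat.add_mod, Nat.mod_eq_of_lt (by omega : 1 < m), h', Nat.mod_self]
      rw [this, hz]
      rw [h', hend] at h1
      exact h1
  · intro w hw n
    have h1 : w ∈ c1.support := by
      have := hcc w ((Set.Finite.mem_toFinset _).mpr hw)
      simp only [c1, SimpleGraph.Walk.support_cons, List.mem_cons]
      exact Or.inr (Or.inr this)
    obtain ⟨i, hi1, hi2⟩ := SimpleGraph.Walk.mem_support_iff_exists_getVert.mp h1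
    obtain ⟨i, hi1, hi2⟩ : ∃ i, c1.getVert i = w ∧ i < m := by
      rcases Nat.lt_or_ge i m with h | h
      · exact ⟨i, hi1, h⟩
      · have : i = m := le_antisymm hi2 h
        subst this
        exact ⟨0, by rw [hz, ← hi1, hend], by omega⟩
    refine ⟨m * (n / m + 1) + i, ?_, ?_, ?_⟩
    · have := Nat.lt_mul_div_succ n (b := m) (by omega)
      omega
    · have := Nat.mul_div_le n m
      have h2 : m * (n / m + 1) = m * (n / m) + m := by ring
      omega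
    · show c1.getVert ((m * (n / m + 1) + i) % m) = w
      rw [Nat.mul_add_mod, Nat.mod_eq_of_lt hi2, hi1]

omit [∀ v, Group (G v)] in
theorem Recur.mono {L : ℕ → Σ v, G v} {W : Set V} {l l' : ℕ} (h : Recur L W l) (hl : l ≤ l') :
    Recur L W l' :=
  ⟨lt_of_lt_of_le h.1 hl, fun v hv n => by
    obtain ⟨j, h1, h2, h3⟩ := h.2 v hv n
    exact ⟨j, h1, by omega, h3⟩⟩

theorem ray_exists [Finite V] [∀ v, Nontrivial (G v)] {a b : V} (hab : Γᶜ.Adj a b)
    (hc : ∀ w ∈ V1 Γ, Γᶜ.Reachable a w) {α : G a} (hα : α ≠ 1) :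
    ∃ (L : ℕ → Σ v, G v) (l : ℕ), Rigid Γ L ∧ Recur L (V1 Γ) l ∧ L 0 = ⟨a, α⟩ ∧ (L 1).1 = b := by
  obtain ⟨v, l, hl, h0, h1, hadj, hrec⟩ := seq_exists hab hc
  have he : ∀ v, ∃ x : G v, x ≠ 1 := fun v => exists_ne 1
  choose e he using he
  let L : ℕ → Σ v, G v := fun n => if n = 0 then ⟨a, α⟩ else ⟨v n, e (v n)⟩
  have hfst : ∀ n, (L n).1 = v n := by
    intro n
    by_cases h : n = 0
    · subst h
      simp only [L, if_true]
      exact h0.symm
    · simp only [L, if_neg h]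
  refine ⟨L, l, ⟨?_, ?_⟩, ⟨hl, ?_⟩, ?_, ?_⟩
  · intro n
    by_cases h : n = 0
    · subst h
      have h' : L 0 = ⟨a, α⟩ := if_pos rfl
      rw [h']
      exact hα
    · have h' : L n = ⟨v n, e (v n)⟩ := if_neg h
      rw [h']
      exact he _
  · intro n
    rw [hfst, hfst]
    exact hadj n
  · intro x hx n
    obtain ⟨j, h1, h2, h3⟩ := hrec x hx n
    exact ⟨j, h1, h2, by rw [hfst]; exact h3⟩
  · simp only [L, if_true]
  · rw [hfst, h1]

/-- boundedness -/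
theorem not_ql_of_bdd {α : Type*} {X : SimpleGraph α} (B : ℕ) (h : ∀ x y, X.dist x y ≤ B) :
    ¬ QuasiLine X := by
  rintro ⟨hconn, f, L, C, hL, hC, hf, hs⟩
  obtain ⟨x0⟩ := hconn.nonempty
  obtain ⟨x, hx⟩ := hs (f x0 + L * B + 2 * C + 1)
  have h1 := (hf x x0).1
  have h2 : (X.dist x x0 : ℝ) ≤ B := by exact_mod_cast h x x0
  have h3 : L * (X.dist x x0 : ℝ) ≤ L * B := by nlinarith
  rw [abs_le] at hx h1
  linarith [hx.1, h1.2]

theorem exists_bd (g : GP Γ G) : ∃ n, ∀ x, (elec Γ G).dist x (x * g) ≤ n := by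
  induction g using GP.ind with
  | h1 => exact ⟨0, fun x => by rw [mul_one, SimpleGraph.dist_self]⟩
  | hm v y g ih =>
    obtain ⟨n, hn⟩ := ih
    refine ⟨1 + n, fun x => ?_⟩
    have h1 : (elec Γ G).dist x (x * inc Γ G v y) ≤ 1 := by
      by_cases h : inc Γ G v y = 1
      · rw [h, mul_one, SimpleGraph.dist_self]; omega
      · rw [SimpleGraph.dist_eq_one_iff_adj.mpr (elec_adj_mul x (Or.inl ⟨v, y, rfl⟩) h)]
    calc (elec Γ G).dist x (x * (inc Γ G v y * g))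
        ≤ (elec Γ G).dist x (x * inc Γ G v y) +
          (elec Γ G).dist (x * inc Γ G v y) (x * (inc Γ G v y * g)) :=
          elec_conn.dist_triangle
      _ ≤ 1 + n := by
          apply Nat.add_le_add h1
          rw [← mul_assoc]
          exact hn _

theorem par_insert {u : V} {Λ : Set V} (h : ∀ v ∈ Λ, Γ.Adj u v) {g : GP Γ G}
    (hg : g ∈ par Γ G (insert u Λ)) : ∃ g' ∈ par Γ G Λ, ∃ y : G u, g = g' * inc Γ G u y := by
  have hcomm : ∀ y : G u, ∀ g' ∈ par Γ G Λ, inc Γ G u y * g' = g' * inc Γ G u y := by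
    intro y g' hg'
    induction hg' using Subgroup.closure_induction with
    | mem x hx =>
      obtain ⟨v, hv, z, rfl⟩ := hx
      exact inc_comm (h v hv) y z
    | one => rw [one_mul, mul_one]
    | mul a b _ _ ha hb => rw [← mul_assoc, ha, mul_assoc, hb, mul_assoc]
    | inv a _ ha =>
      rw [eq_inv_mul_iff_mul_eq, ← mul_assoc, ← ha, mul_assoc, mul_inv_cancel, mul_one]
  induction hg using Subgroup.closure_induction with
  | mem x hx =>
    obtain ⟨v, hv, z, rfl⟩ := hx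
    rcases hv with rfl | hv
    · exact ⟨1, one_mem _, z, by rw [one_mul]⟩
    · exact ⟨_, mem_par hv z, 1, by rw [map_one, mul_one]⟩
  | one => exact ⟨1, one_mem _, 1, by rw [map_one, mul_one]⟩
  | mul a b _ _ ha hb =>
    obtain ⟨a', ha', y, rfl⟩ := ha
    obtain ⟨b', hb', z, rfl⟩ := hb
    refine ⟨a' * b', mul_mem ha' hb', y * z, ?_⟩
    rw [map_mul, mul_assoc, ← mul_assoc (inc Γ G u y), hcomm y b' hb']
    group
  | inv a _ ha =>
    obtain ⟨a', ha', y, rfl⟩ := ha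
    refine ⟨a'⁻¹, inv_mem ha', y⁻¹, ?_⟩
    rw [mul_inv_rev, ← map_inv, hcomm _ _ (inv_mem ha')]

theorem fin_part [∀ v, Finite (G v)] (Λ0 : Set V) (K : Finset V)
    (hK : ∀ u ∈ K, ∀ v, v ≠ u → Γ.Adj u v) :
    ∃ T : Set (GP Γ G), T.Finite ∧ ∀ g ∈ par Γ G (Λ0 ∪ ↑K), ∃ g0 ∈ par Γ G Λ0, ∃ t ∈ T,
      g = g0 * t := by
  classical
  induction K using Finset.induction_on with
  | empty =>
    refine ⟨{1}, Set.finite_singleton 1, fun g hg => ?_⟩
    rw [Finset.coe_empty, Set.union_empty] at hg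
    exact ⟨g, hg, 1, rfl, (mul_one g).symm⟩
  | insert u K hu ih =>
    obtain ⟨T, hT, h⟩ := ih (fun v hv => hK v (Finset.mem_insert_of_mem hv))
    by_cases hu0 : u ∈ Λ0
    · refine ⟨T, hT, ?_⟩
      have : Λ0 ∪ ↑(insert u K) = Λ0 ∪ (↑K : Set V) := by
        rw [Finset.coe_insert]
        ext x
        simp only [Set.mem_union, Set.mem_insert_iff]
        constructor
        · rintro (h | rfl | h)
          · exact Or.inl h
          · exact Or.inl hu0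
          · exact Or.inr h
        · rintro (h | h)
          · exact Or.inl h
          · exact Or.inr (Or.inr h)
      rw [this]
      exact h
    · refine ⟨Set.image2 (· * ·) T (Set.range (inc Γ G u)),
        Set.Finite.image2 _ hT (Set.finite_range _), ?_⟩
      intro g hg
      have hset : Λ0 ∪ ↑(insert u K) = insert u (Λ0 ∪ (↑K : Set V)) := by
        rw [Finset.coe_insert]
        ext x
        simp only [Set.mem_union, Set.mem_insert_iff]
        tauto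
      rw [hset] at hg
      obtain ⟨g', hg', y, rfl⟩ := par_insert (fun v hv => hK u (Finset.mem_insert_self _ _) v (by
        rintro rfl
        rcases hv with hv | hv
        · exact hu0 hv
        · exact hu (Finset.mem_coe.mp hv))) hg
      obtain ⟨g0, hg0, t, ht, rfl⟩ := h g' hg'
      exact ⟨g0, hg0, t * inc Γ G u y, ⟨t, ht, _, ⟨y, rfl⟩, rfl⟩, by rw [mul_assoc]⟩

theorem par_univ (g : GP Γ G) {Λ : Set V} (h : Λ = Set.univ) : g ∈ par Γ G Λ := by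
  subst h
  induction g using GP.ind with
  | h1 => exact one_mem _
  | hm v x g ih => exact mul_mem (mem_par (Set.mem_univ v) x) ih

theorem adj_of_not_V1 {u : V} (h : u ∉ V1 Γ) (v : V) (hv : v ≠ u) : Γ.Adj u v := by
  by_contra h'
  exact h ⟨v, (SimpleGraph.compl_adj _ _ _).mpr ⟨hv.symm, h'⟩⟩

/-- decomposition -/
theorem fin_dec [Finite V] [∀ v, Finite (G v)] {Λ0 : Set V} (h : V1 Γ ⊆ Λ0) :
    ∃ T : Set (GP Γ G), T.Finite ∧ ∀ g : GP Γ G, ∃ g0 ∈ par Γ G Λ0, ∃ t ∈ T, g = g0 * t := by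
  classical
  obtain ⟨T, hT, h1⟩ := fin_part (Γ := Γ) (G := G) Λ0 (Set.toFinite (V1 Γ)ᶜ).toFinset (by
    intro u hu v hv
    exact adj_of_not_V1 ((Set.Finite.mem_toFinset _).mp hu) v hv)
  refine ⟨T, hT, fun g => h1 g (par_univ g ?_)⟩
  rw [Set.Finite.coe_toFinset]
  ext x
  simp only [Set.mem_union, Set.mem_compl_iff, Set.mem_univ, iff_true]
  by_cases hx : x ∈ V1 Γ
  · exact Or.inl (h hx)
  · exact Or.inr hx

theorem fin_bd {T : Set (GP Γ G)} (hT : T.Finite) :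
    ∃ B, ∀ t ∈ T, ∀ x, (elec Γ G).dist x (x * t) ≤ B := by
  classical
  choose n hn using exists_bd (Γ := Γ) (G := G)
  refine ⟨hT.toFinset.sup n, fun t ht x => (hn t x).trans ?_⟩
  exact Finset.le_sup (f := n) ((Set.Finite.mem_toFinset _).mpr ht)

theorem bdd [Finite V] [∀ v, Finite (G v)] {Λ0 : Set V} (h : V1 Γ ⊆ Λ0)
    (h2 : ∀ g ∈ par Γ G Λ0, g = 1 ∨ g ∈ gens Γ G) : ∃ B, ∀ x y, (elec Γ G).dist x y ≤ B := by
  obtain ⟨T, hT, hd⟩ := fin_dec (G := G) h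
  obtain ⟨B, hB⟩ := fin_bd hT
  refine ⟨1 + B, fun x y => ?_⟩
  obtain ⟨g0, hg0, t, ht, hg⟩ := hd (x⁻¹ * y)
  have hy : y = x * g0 * t := by rw [mul_assoc, ← hg]; group
  have h1 : (elec Γ G).dist x (x * g0) ≤ 1 := by
    by_cases h : g0 = 1
    · rw [h, mul_one, SimpleGraph.dist_self]; omega
    · rcases h2 g0 hg0 with h' | h'
      · exact absurd h' h
      · rw [SimpleGraph.dist_eq_one_iff_adj.mpr (elec_adj_mul x h' h)]
  calc (elec Γ G).dist x y ≤ (elec Γ G).dist x (x * g0) + (elec Γ G).dist (x * g0) y :=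
        elec_conn.dist_triangle
    _ ≤ 1 + B := by
        apply Nat.add_le_add h1
        rw [hy]
        exact hB t ht _

theorem adj_of_not_reach {x y : V} (h : ¬ Γᶜ.Reachable x y) : Γ.Adj x y := by
  by_contra h'
  apply h
  by_cases hxy : x = y
  · rw [hxy]
  · exact ((SimpleGraph.compl_adj _ _ _).mpr ⟨hxy, h'⟩).reachable

theorem sq_of {x z x' z' : V} (hx : Γᶜ.Adj x x') (hz : Γᶜ.Adj z z') (h : ¬ Γᶜ.Reachable x z) :
    IsSq Γ x z x' z' := by
  have h1 : ¬ Γᶜ.Reachable z x' := fun h' => h (hx.reachable.trans h'.symm)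
  have h2 : ¬ Γᶜ.Reachable x' z' := fun h' =>
    h1 (hz.reachable.trans h'.symm)
  have h3 : ¬ Γᶜ.Reachable z' x := fun h' => h (h'.symm.trans hz.symm.reachable)
  have hx' := (SimpleGraph.compl_adj _ _ _).mp hx
  have hz' := (SimpleGraph.compl_adj _ _ _).mp hz
  exact ⟨adj_of_not_reach h, adj_of_not_reach h1, adj_of_not_reach h2, adj_of_not_reach h3,
    hx'.1, hz'.1, hx'.2, hz'.2⟩

theorem conn_or [Finite V] : (∃ Λ, MinSq Γ Λ ∧ V1 Γ ⊆ Λ) ∨
    ∀ x ∈ V1 Γ, ∀ z ∈ V1 Γ, Γᶜ.Reachable x z := by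
  by_cases h : ∀ x ∈ V1 Γ, ∀ z ∈ V1 Γ, Γᶜ.Reachable x z
  · exact Or.inr h
  left
  push Not at h
  obtain ⟨x, ⟨x', hx⟩, z, ⟨z', hz⟩, hxz⟩ := h
  obtain ⟨Λ, hΛ⟩ := exists_minimal_of_wellFoundedLT
    (fun Λ' : Set V => SqComplete Γ Λ' ∧ HasSq Γ Λ')
    ⟨Set.univ, fun _ _ _ _ _ _ _ => ⟨Set.mem_univ _, Set.mem_univ _⟩,
      x, z, x', z', Set.mem_univ _, Set.mem_univ _, Set.mem_univ _, Set.mem_univ _,
      sq_of hx hz hxz⟩
  refine ⟨Λ, hΛ, ?_⟩
  obtain ⟨hsc, a, b, c, d, ha, hb, hc, hd, hsq⟩ := hΛ.prop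
  obtain ⟨hab, hbc, hcd, hda, hac, hbd, hac', hbd'⟩ := hsq
  have hac1 : Γᶜ.Adj a c := (SimpleGraph.compl_adj _ _ _).mpr ⟨hac, hac'⟩
  -- vertices not reachable from `a`
  have key : ∀ (p p' : V), p ∈ Λ → p' ∈ Λ → Γᶜ.Adj p p' → ∀ y y', Γᶜ.Adj y y' →
      ¬ Γᶜ.Reachable p y → y ∈ Λ ∧ y' ∈ Λ := by
    intro p p' hp hp' hpp y y' hyy hn
    exact hsc p y p' y' (sq_of hpp hyy hn) hp hp'
  obtain ⟨s, s', hss, hs⟩ : ∃ s s', Γᶜ.Adj s s' ∧ ¬ Γᶜ.Reachable a s := by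
    by_cases h1 : Γᶜ.Reachable a x
    · exact ⟨z, z', hz, fun h2 => hxz (h1.symm.trans h2)⟩
    · exact ⟨x, x', hx, h1⟩
  obtain ⟨hs1, hs2⟩ := key a c ha hc hac1 s s' hss hs
  intro y hy
  obtain ⟨y', hyy⟩ := hy
  by_cases h1 : Γᶜ.Reachable a y
  · exact (key s s' hs1 hs2 hss y y' hyy (fun h2 => hs (h1.trans h2.symm))).1
  · exact (key a c ha hc hac1 y y' hyy h1).1

variable (Γ G) in
/-- the classification -/
def Cls : Prop := ∃ a b : V, a ≠ b ∧ ¬ Γ.Adj a b ∧ Nat.card (G a) = 2 ∧ Nat.card (G b) = 2 ∧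
  ∀ x y : V, x ≠ y → ¬ Γ.Adj x y → (x = a ∧ y = b) ∨ (x = b ∧ y = a)

theorem card_two {v : V} [Nontrivial (G v)] (h : ¬ ∃ x y : G v, x ≠ 1 ∧ y ≠ 1 ∧ x ≠ y) :
    Nat.card (G v) = 2 := by
  obtain ⟨e, he⟩ := exists_ne (1 : G v)
  rw [Nat.card_eq_two_iff]
  refine ⟨1, e, he.symm, ?_⟩
  ext y
  simp only [Set.mem_insert_iff, Set.mem_singleton_iff, Set.mem_univ, iff_true]
  by_contra h'
  push Not at h'
  exact h ⟨y, e, h'.1, he, h'.2⟩

theorem trich [∀ v, Nontrivial (G v)] (h : (V1 Γ).Nonempty) :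
    Cls Γ G ∨
    (∃ (b a c : V) (α : G a) (γ : G c), Γᶜ.Adj a b ∧ Γᶜ.Adj c b ∧ α ≠ 1 ∧ γ ≠ 1 ∧
      (⟨a, α⟩ : Σ v, G v) ≠ ⟨c, γ⟩) ∨
    (∃ a b c d : V, Γᶜ.Adj a b ∧ Γᶜ.Adj c d ∧ c ≠ a ∧ c ≠ b ∧ d ≠ a ∧ d ≠ b ∧
      (∀ x, Γᶜ.Adj a x → x = b) ∧ (∀ x, Γᶜ.Adj b x → x = a) ∧
      Nat.card (G a) = 2 ∧ Nat.card (G b) = 2 ∧ Nat.card (G c) = 2 ∧ Nat.card (G d) = 2) := by
  by_cases hi : ∃ (b a c : V) (α : G a) (γ : G c), Γᶜ.Adj a b ∧ Γᶜ.Adj c b ∧ α ≠ 1 ∧ γ ≠ 1 ∧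
      (⟨a, α⟩ : Σ v, G v) ≠ ⟨c, γ⟩
  · exact Or.inr (Or.inl hi)
  have F1 : ∀ a b, Γᶜ.Adj a b → Nat.card (G a) = 2 := by
    intro a b hab
    apply card_two
    rintro ⟨x, y, hx, hy, hxy⟩
    refine hi ⟨b, a, a, x, y, hab, hab, hx, hy, ?_⟩
    intro he
    exact hxy (eq_of_heq (Sigma.mk.inj_iff.mp he).2)
  have F2 : ∀ b a c, Γᶜ.Adj b a → Γᶜ.Adj b c → a = c := by
    intro b a c h1 h2
    by_contra hne
    obtain ⟨x, hx⟩ := exists_ne (1 : G a)
    obtain ⟨y, hy⟩ := exists_ne (1 : G c)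
    exact hi ⟨b, a, c, x, y, h1.symm, h2.symm, hx, hy, fun he => hne (congrArg Sigma.fst he)⟩
  obtain ⟨a, b, hab⟩ := h
  have hab' := (SimpleGraph.compl_adj _ _ _).mp hab
  by_cases hall : ∀ x y : V, x ≠ y → ¬ Γ.Adj x y → (x = a ∧ y = b) ∨ (x = b ∧ y = a)
  · exact Or.inl ⟨a, b, hab'.1, hab'.2, F1 a b hab, F1 b a hab.symm, hall⟩
  · right; right
    push Not at hall
    obtain ⟨c, d, hcd, hcd', h1, h2⟩ := hall
    have hcd1 : Γᶜ.Adj c d := (SimpleGraph.compl_adj _ _ _).mpr ⟨hcd, hcd'⟩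
    refine ⟨a, b, c, d, hab, hcd1, ?_, ?_, ?_, ?_, fun x hx => F2 a x b hx hab,
      fun x hx => F2 b x a hx hab.symm, F1 a b hab, F1 b a hab.symm, F1 c d hcd1,
      F1 d c hcd1.symm⟩
    · rintro rfl
      exact h1 rfl (F2 _ _ _ hcd1 hab)
    · rintro rfl
      exact h2 rfl (F2 _ _ _ hcd1 hab.symm)
    · rintro rfl
      exact h2 (F2 _ _ _ hcd1.symm hab) rfl
    · rintro rfl
      exact h1 (F2 _ _ _ hcd1.symm hab.symm) rfl

theorem ql_cls [Finite V] [∀ v, Finite (G v)] [∀ v, Nontrivial (G v)]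
    (hq : QuasiLine (elec Γ G)) : Cls Γ G := by
  have hne : (V1 Γ).Nonempty := by
    by_contra h
    rw [Set.not_nonempty_iff_eq_empty] at h
    obtain ⟨B, hB⟩ := bdd (Γ := Γ) (G := G) (Λ0 := ∅) (by rw [h]) (by
      intro g hg
      left
      have : par Γ G ∅ = ⊥ := by
        rw [par, eq_bot_iff]
        rw [Subgroup.closure_le]
        rintro _ ⟨v, hv, _⟩
        exact absurd hv (Set.notMem_empty v)
      rw [this] at hg
      exact Subgroup.mem_bot.mp hg)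
    exact not_ql_of_bdd B hB hq
  have hmin : ∀ Λ, MinSq Γ Λ → ∃ w ∈ V1 Γ, w ∉ Λ := by
    intro Λ hΛ
    by_contra h
    push Not at h
    obtain ⟨B, hB⟩ := bdd (Γ := Γ) (G := G) (Λ0 := Λ) h
      (fun g hg => Or.inr (Or.inr ⟨Λ, hΛ, hg⟩))
    exact not_ql_of_bdd B hB hq
  have hconn : ∀ x ∈ V1 Γ, ∀ z ∈ V1 Γ, Γᶜ.Reachable x z := by
    rcases conn_or (Γ := Γ) with ⟨Λ, h1, h2⟩ | h
    · obtain ⟨w, hw, hw'⟩ := hmin Λ h1
      exact absurd (h2 hw) hw'
    · exact h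
  have h1 : ∀ u, ∃ w ∈ V1 Γ, w ≠ u := by
    intro u
    obtain ⟨a, b, hab⟩ := hne
    by_cases h : a = u
    · exact ⟨b, ⟨a, hab.symm⟩, fun h' => hab.ne (h.trans h'.symm)⟩
    · exact ⟨a, ⟨b, hab⟩, h⟩
  rcases trich (G := G) hne with h | ⟨b, a, c, α, γ, hab, hcb, hα, hγ, hne'⟩ |
      ⟨a, b, c, d, hab, hcd, hca, hcb, _, _, ha, hb, _⟩
  · exact h
  · exfalso
    obtain ⟨L1, l1, hL1, hr1, h10, h11⟩ := ray_exists hab (hconn a ⟨b, hab⟩) hα
    obtain ⟨L2, l2, hL2, hr2, h20, h21⟩ := ray_exists hcb (hconn c ⟨b, hcb⟩) hγ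
    obtain ⟨e, he⟩ := exists_ne (1 : G b)
    have hb1 : Γᶜ.Adj (L1 0).1 b := by rw [h10]; exact hab
    have hb2 : Γᶜ.Adj (L2 0).1 b := by rw [h20]; exact hcb
    exact tripod h1 hmin hL1 hL2 (hr1.mono (le_max_left l1 l2)) (hr2.mono (le_max_right l1 l2))
      hb1 hb2 h11 h21 he (by rw [h10, h20]; exact hne') hq
  · exfalso
    have hcl : ∀ x, Γᶜ.Reachable a x → x = a ∨ x = b := by
      intro x hx
      rw [SimpleGraph.reachable_iff_reflTransGen] at hx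
      induction hx with
      | refl => exact Or.inl rfl
      | tail _ h ih =>
        rcases ih with rfl | rfl
        · exact Or.inr (ha _ h)
        · exact Or.inl (hb _ h)
    rcases hcl c (hconn a ⟨b, hab⟩ c ⟨d, hcd⟩) with h | h
    · exact hca h
    · exact hcb h

end Pool.R640.GE
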