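import Pool.Agent.R640.GE.Defs

set_option autoImplicit false

namespace Pool.R640.GE

open Monoid

universe u w

variable {V : Type u} {Γ : SimpleGraph V} {G : V → Type w} [∀ v, Group (G v)]

theorem quo_rel {r : CoprodI G} (h : r ∈ rels Γ G) : quo Γ G r = 1 :=
  (QuotientGroup.eq_one_iff _).mpr (Subgroup.subset_normalClosure h)

theorem quo_surj : Function.Surjective (quo Γ G) := QuotientGroup.mk'_surjective _

theorem inc_comm {u v : V} (h : Γ.Adj u v) (g : G u) (k : G v) :
    inc Γ G u g * inc Γ G v k = inc Γ G v k * inc Γ G u g := by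
  have h1 := quo_rel (Γ := Γ) (G := G) ⟨u, v, g, k, h, rfl⟩
  simp only [map_mul, map_inv] at h1
  have h2 : inc Γ G u g * inc Γ G v k * (inc Γ G u g)⁻¹ * (inc Γ G v k)⁻¹ = 1 := h1
  rw [mul_inv_eq_one, mul_inv_eq_iff_eq_mul] at h2
  exact h2

theorem GP.ind {P : GP Γ G → Prop} (h1 : P 1)
    (hm : ∀ (v : V) (x : G v) (g : GP Γ G), P g → P (inc Γ G v x * g)) (g : GP Γ G) : P g := by
  obtain ⟨z, rfl⟩ := quo_surj g
  induction z using CoprodI.induction_left with
  | one => rw [map_one]; exact h1
  | mul m x ih => rw [map_mul]; exact hm _ m _ ih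

/-- Universal property. -/
noncomputable def GP.lift {H : Type*} [Group H] (f : ∀ v, G v →* H)
    (hf : ∀ u v (g : G u) (k : G v), Γ.Adj u v → f u g * f v k = f v k * f u g) :
    GP Γ G →* H :=
  QuotientGroup.lift _ (CoprodI.lift f) (by
    have hle : Subgroup.normalClosure (rels Γ G) ≤ (CoprodI.lift f).ker := by
      apply Subgroup.normalClosure_le_normal
      rintro _ ⟨u, v, g, k, h, rfl⟩
      show _ ∈ (CoprodI.lift f).ker
      rw [MonoidHom.mem_ker]
      simp only [map_mul, map_inv, CoprodI.lift_of]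
      rw [hf u v g k h]
      group
    intro x hx
    exact hle hx)

theorem GP.lift_inc {H : Type*} [Group H] (f : ∀ v, G v →* H)
    (hf : ∀ u v (g : G u) (k : G v), Γ.Adj u v → f u g * f v k = f v k * f u g)
    (v : V) (x : G v) : GP.lift f hf (inc Γ G v x) = f v x := by
  show QuotientGroup.lift _ (CoprodI.lift f) _ (QuotientGroup.mk _) = _
  rw [QuotientGroup.lift_mk, CoprodI.lift_of]

theorem mem_par {Λ : Set V} {v : V} (h : v ∈ Λ) (x : G v) : inc Γ G v x ∈ par Γ G Λ :=
  Subgroup.subset_closure ⟨v, h, x, rfl⟩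

theorem par_mono {Λ Λ' : Set V} (h : Λ ⊆ Λ') : par Γ G Λ ≤ par Γ G Λ' := by
  apply Subgroup.closure_mono
  rintro _ ⟨v, hv, x, rfl⟩
  exact ⟨v, h hv, x, rfl⟩

variable (Γ) in
/-- star of a vertex -/
def str (v : V) : Set V := {u | Γ.Adj v u ∨ u = v}

theorem self_mem_str (v : V) : v ∈ str Γ v := Or.inr rfl

theorem adj_mem_str {v u : V} (h : Γ.Adj v u) : u ∈ str Γ v := Or.inl h

theorem str_symm {u v : V} (h : u ∈ str Γ v) : v ∈ str Γ u := by
  rcases h with h | h
  · exact Or.inl h.symm
  · exact Or.inr h.symm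

variable (Γ G) in
/-- cliques -/
def Clq : Type (max u w) := Σ v : V, Quotient (QuotientGroup.rightRel (par Γ G (str Γ v)))

variable (Γ G) in
/-- the clique of type `v` at `g` -/
def cl (v : V) (g : GP Γ G) : Clq Γ G := ⟨v, Quotient.mk _ g⟩

/-- the type of a clique -/
def Clq.ty (C : Clq Γ G) : V := C.1

theorem cl_ty (v : V) (g : GP Γ G) : (cl Γ G v g).ty = v := rfl

theorem cl_eq {v : V} {g g' : GP Γ G} : cl Γ G v g = cl Γ G v g' ↔ g' * g⁻¹ ∈ par Γ G (str Γ v) := by
  constructor
  · intro h
    have h2 : (Quotient.mk (QuotientGroup.rightRel (par Γ G (str Γ v))) g) = Quotient.mk _ g' := by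
      have := (Sigma.mk.inj_iff.mp h).2
      exact eq_of_heq this
    exact QuotientGroup.rightRel_apply.mp (Quotient.exact h2)
  · intro h
    have h2 : (Quotient.mk (QuotientGroup.rightRel (par Γ G (str Γ v))) g) = Quotient.mk _ g' :=
      Quotient.sound (QuotientGroup.rightRel_apply.mpr h)
    show (⟨v, _⟩ : Clq Γ G) = ⟨v, _⟩
    rw [h2]

theorem cl_type {v v' : V} {g g' : GP Γ G} (h : cl Γ G v g = cl Γ G v' g') : v = v' :=
  congrArg Sigma.fst h

theorem cl_left {v : V} {g h : GP Γ G} (hh : h ∈ par Γ G (str Γ v)) :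
    cl Γ G v (h * g) = cl Γ G v g := by
  rw [cl_eq]
  have : g * (h * g)⁻¹ = h⁻¹ := by group
  rw [this]
  exact inv_mem hh

variable (Γ G) in
/-- states -/
@[ext]
structure St : Type (max u w) where
  /-- coordinates -/
  fn : Clq Γ G → ∀ v, G v
  /-- position -/
  pt : GP Γ G

open Classical in
/-- letters in the product -/
noncomputable def ms (v : V) (x : G v) : ∀ v, G v := Pi.mulSingle v x

theorem ms_one (v : V) : ms v (1 : G v) = 1 := by classical exact Pi.mulSingle_one v

theorem ms_mul (v : V) (x y : G v) : ms v (x * y) = ms v x * ms v y := by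
  classical exact Pi.mulSingle_mul v x y

theorem ms_inj {v : V} {x y : G v} (h : ms v x = ms v y) : x = y := by
  classical exact Pi.mulSingle_injective v h

theorem ms_ne {v : V} {x : G v} (h : x ≠ 1) : ms v x ≠ 1 := fun h' =>
  h (ms_inj (h'.trans (ms_one v).symm))

open Classical in
/-- the action of a letter -/
noncomputable def actf (v : V) (x : G v) (s : St Γ G) : St Γ G :=
  ⟨Function.update s.fn (cl Γ G v s.pt) (ms v x * s.fn (cl Γ G v s.pt)), inc Γ G v x * s.pt⟩

theorem actf_one (v : V) (s : St Γ G) : actf v 1 s = s := by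
  classical
  apply St.ext
  · simp only [actf, ms_one, one_mul]
    exact Function.update_eq_self _ _
  · show inc Γ G v 1 * s.pt = s.pt
    rw [map_one, one_mul]

theorem actf_mul (v : V) (x y : G v) (s : St Γ G) : actf v (x * y) s = actf v x (actf v y s) := by
  classical
  have hc : cl Γ G v (inc Γ G v y * s.pt) = cl Γ G v s.pt := cl_left (mem_par (self_mem_str v) y)
  apply St.ext
  · simp only [actf, hc, Function.update_self, Function.update_idem, ms_mul, mul_assoc]
  · show inc Γ G v (x * y) * s.pt = inc Γ G v x * (inc Γ G v y * s.pt)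
    rw [map_mul, mul_assoc]

/-- the letters as permutations -/
noncomputable def stp (v : V) : G v →* Equiv.Perm (St Γ G) where
  toFun x := ⟨actf v x, actf v x⁻¹, fun s => by rw [← actf_mul, inv_mul_cancel, actf_one],
    fun s => by rw [← actf_mul, mul_inv_cancel, actf_one]⟩
  map_one' := Equiv.ext fun s => actf_one v s
  map_mul' x y := Equiv.ext fun s => actf_mul v x y s

theorem stp_apply (v : V) (x : G v) (s : St Γ G) : stp v x s = actf v x s := rfl

theorem stp_comm {u v : V} (h : Γ.Adj u v) (x : G u) (y : G v) :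
    (stp u x : Equiv.Perm (St Γ G)) * stp v y = stp v y * stp u x := by
  classical
  apply Equiv.ext
  intro s
  have hne : u ≠ v := h.ne
  have h1 : cl Γ G u (inc Γ G v y * s.pt) = cl Γ G u s.pt := cl_left (mem_par (adj_mem_str h) y)
  have h2 : cl Γ G v (inc Γ G u x * s.pt) = cl Γ G v s.pt :=
    cl_left (mem_par (adj_mem_str h.symm) x)
  have h3 : cl Γ G u s.pt ≠ cl Γ G v s.pt := fun h' => hne (cl_type h')
  show actf u x (actf v y s) = actf v y (actf u x s)
  apply St.ext
  · simp only [actf, h1, h2, Function.update_of_ne h3, Function.update_of_ne h3.symm]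
    rw [Function.update_comm h3]
  · show inc Γ G u x * (inc Γ G v y * s.pt) = inc Γ G v y * (inc Γ G u x * s.pt)
    rw [← mul_assoc, inc_comm h, mul_assoc]

variable (Γ G) in
/-- the representation -/
noncomputable def rep : GP Γ G →* Equiv.Perm (St Γ G) :=
  GP.lift (fun v => stp v) (fun _ _ g k h => stp_comm h g k)

theorem rep_inc (v : V) (x : G v) (s : St Γ G) : rep Γ G (inc Γ G v x) s = actf v x s := by
  rw [rep, GP.lift_inc]
  rfl

theorem rep_snd (g : GP Γ G) : ∀ s : St Γ G, (rep Γ G g s).pt = g * s.pt := by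
  induction g using GP.ind with
  | h1 => intro s; rw [map_one, one_mul]; rfl
  | hm v x g ih =>
    intro s
    rw [map_mul, Equiv.Perm.mul_apply, rep_inc]
    show inc Γ G v x * (rep Γ G g s).pt = _
    rw [ih, mul_assoc]

variable (Γ G) in
/-- base state -/
def st0 : St Γ G := ⟨fun _ => 1, 1⟩

/-- clique coordinate -/
noncomputable def crd (C : Clq Γ G) (g : GP Γ G) : ∀ v, G v := (rep Γ G g (st0 Γ G)).fn C

theorem crd_one (C : Clq Γ G) : crd C (1 : GP Γ G) = 1 := by
  rw [crd, map_one]; rfl

theorem rep_st0 (g : GP Γ G) : (rep Γ G g (st0 Γ G)).pt = g := by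
  rw [rep_snd]; exact mul_one _

theorem crd_self (v : V) (x : G v) (g : GP Γ G) :
    crd (cl Γ G v g) (inc Γ G v x * g) = ms v x * crd (cl Γ G v g) g := by
  classical
  simp only [crd, map_mul, Equiv.Perm.mul_apply, rep_inc, actf, rep_st0, Function.update_self]

theorem crd_ne {v : V} {x : G v} {g : GP Γ G} {C : Clq Γ G} (h : cl Γ G v g ≠ C) :
    crd C (inc Γ G v x * g) = crd C g := by
  classical
  simp only [crd, map_mul, Equiv.Perm.mul_apply, rep_inc, actf, rep_st0,
    Function.update_of_ne h.symm]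

theorem crd_self_ne {v : V} {x : G v} (hx : x ≠ 1) {g : GP Γ G} {C : Clq Γ G}
    (h : cl Γ G v g = C) : crd C (inc Γ G v x * g) ≠ crd C g := by
  subst h
  rw [crd_self]
  intro h
  exact ms_ne hx (mul_eq_right.mp h)

/-- moving inside a parabolic subgroup without the type of `C` -/
theorem crd_par {Λ : Set V} {C : Clq Γ G} (hC : C.ty ∉ Λ) {s : GP Γ G} (hs : s ∈ par Γ G Λ) :
    ∀ g, crd C (s * g) = crd C g := by
  induction hs using Subgroup.closure_induction with
  | mem x hx =>
    obtain ⟨v, hv, y, rfl⟩ := hx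
    intro g
    apply crd_ne
    intro h
    apply hC
    rw [← h]
    exact hv
  | one => intro g; rw [one_mul]
  | mul x y _ _ hx hy => intro g; rw [mul_assoc, hx, hy]
  | inv x _ hx =>
    intro g
    have := hx (x⁻¹ * g)
    rw [mul_inv_cancel_left] at this
    exact this.symm

/-- if the coordinate changes along an element of `par Λ` then some point is at the clique -/
theorem cross {Λ : Set V} {C : Clq Γ G} {s : GP Γ G} (hs : s ∈ par Γ G Λ) :
    ∀ g, crd C (s * g) ≠ crd C g → ∃ t ∈ par Γ G Λ, cl Γ G C.ty (t * g) = C := by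
  induction hs using Subgroup.closure_induction with
  | mem x hx =>
    obtain ⟨v, hv, y, rfl⟩ := hx
    intro g hg
    have h : cl Γ G v g = C := by
      by_contra h
      exact hg (crd_ne h)
    refine ⟨1, one_mem _, ?_⟩
    rw [one_mul, ← h, cl_ty]
  | one => intro g hg; rw [one_mul] at hg; exact absurd rfl hg
  | mul x y hx hy ihx ihy =>
    intro g hg
    by_cases h : crd C (y * g) = crd C g
    · rw [← h, mul_assoc] at hg
      obtain ⟨t, ht, h2⟩ := ihx (y * g) hg
      exact ⟨t * y, mul_mem ht hy, by rw [mul_assoc]; exact h2⟩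
    · exact ihy g h
  | inv x hx ih =>
    intro g hg
    obtain ⟨t, ht, h2⟩ := ih (x⁻¹ * g) (by rw [mul_inv_cancel_left]; exact hg.symm)
    exact ⟨t * x⁻¹, mul_mem ht (inv_mem hx), by rw [mul_assoc]; exact h2⟩

/-- carriers: if `C` does not cross the carrier of `(v, g)` its coordinate is constant there -/
theorem crd_car {v : V} {g : GP Γ G} {C : Clq Γ G}
    (h : C.ty ∈ str Γ v → ∀ s ∈ par Γ G (str Γ v), cl Γ G C.ty (s * g) ≠ C)
    {s : GP Γ G} (hs : s ∈ par Γ G (str Γ v)) : crd C (s * g) = crd C g := by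
  by_cases hC : C.ty ∈ str Γ v
  · by_contra hne
    obtain ⟨t, ht, h2⟩ := cross hs g hne
    exact h hC t ht h2
  · exact crd_par hC hs g

end Pool.R640.GE
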