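import Mathlib

set_option autoImplicit false

namespace Pool.R640.GE

open Monoid

universe u w

variable {V : Type u} (Γ : SimpleGraph V) (G : V → Type w) [∀ v, Group (G v)]

/-- The commutation relators `[g, h]`, `g ∈ G_u`, `h ∈ G_v`, `u, v` adjacent. -/
def rels : Set (CoprodI G) :=
  {r | ∃ (u v : V) (g : G u) (h : G v), Γ.Adj u v ∧
    r = (CoprodI.of g : CoprodI G) * CoprodI.of h * (CoprodI.of g)⁻¹ * (CoprodI.of h)⁻¹}

/-- The graph product: the free product modulo the normal closure of the commutation relators. -/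
def GP : Type (max u w) := CoprodI G ⧸ Subgroup.normalClosure (rels Γ G)

instance : Group (GP Γ G) :=
  inferInstanceAs (Group (CoprodI G ⧸ Subgroup.normalClosure (rels Γ G)))

/-- The quotient map. -/
def quo : CoprodI G →* GP Γ G := QuotientGroup.mk' (Subgroup.normalClosure (rels Γ G))

/-- The canonical map of a vertex group. -/
def inc (v : V) : G v →* GP Γ G := (quo Γ G).comp CoprodI.of

/-- The parabolic subgroup `⟨Λ⟩`. -/
def par (Λ : Set V) : Subgroup (GP Γ G) :=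
  Subgroup.closure {x | ∃ v ∈ Λ, ∃ g : G v, x = inc Γ G v g}

/-- `a, b, c, d` (in this cyclic order) span an induced square; `a, c` and `b, d` are opposite. -/
def IsSq (a b c d : V) : Prop :=
  Γ.Adj a b ∧ Γ.Adj b c ∧ Γ.Adj c d ∧ Γ.Adj d a ∧ a ≠ c ∧ b ≠ d ∧ ¬ Γ.Adj a c ∧ ¬ Γ.Adj b d

/-- `Λ` contains an induced square. -/
def HasSq (Λ : Set V) : Prop :=
  ∃ a b c d, a ∈ Λ ∧ b ∈ Λ ∧ c ∈ Λ ∧ d ∈ Λ ∧ IsSq Γ a b c d

/-- Square-complete subgraphs. -/
def SqComplete (Λ : Set V) : Prop :=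
  ∀ a b c d, IsSq Γ a b c d → a ∈ Λ → c ∈ Λ → b ∈ Λ ∧ d ∈ Λ

/-- Minsquare subgraphs: minimal among the square-complete subgraphs with an induced square. -/
def MinSq (Λ : Set V) : Prop := Minimal (fun Λ' : Set V => SqComplete Γ Λ' ∧ HasSq Γ Λ') Λ

/-- The generating set `⋃ G_u ∪ ⋃ ⟨Λ⟩`, `Λ` minsquare. -/
def gens : Set (GP Γ G) :=
  {x | (∃ (v : V) (g : G v), x = inc Γ G v g) ∨ ∃ Λ : Set V, MinSq Γ Λ ∧ x ∈ par Γ G Λ}

/-- The electrification: the Cayley graph with respect to `gens`. -/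
def elec : SimpleGraph (GP Γ G) := SimpleGraph.fromRel (fun x y => x⁻¹ * y ∈ gens Γ G)

/-- A connected graph whose vertex set with the path metric is quasi-isometric to `ℝ`. -/
def QuasiLine {α : Type*} (X : SimpleGraph α) : Prop :=
  X.Connected ∧ ∃ (f : α → ℝ) (L C : ℝ), 1 ≤ L ∧ 0 ≤ C ∧
    (∀ x y, |f x - f y| ≤ L * X.dist x y + C ∧ (X.dist x y : ℝ) ≤ L * |f x - f y| + C) ∧
    ∀ t : ℝ, ∃ x, |f x - t| ≤ C

/-- Virtually cyclic groups. -/
def VirtCyclic (H : Type*) [Group H] : Prop :=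
  ∃ K : Subgroup H, IsCyclic K ∧ K.FiniteIndex

end Pool.R640.GE
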