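import Pool.Agent.R640.GE.Comb

set_option autoImplicit false

namespace Pool.R640.GE

open Monoid

universe u w

variable {V : Type u} {Γ : SimpleGraph V} {G : V → Type w} [∀ v, Group (G v)]

theorem two {H : Type*} [Group H] (h : Nat.card H = 2) {x y : H} (hx : x ≠ 1) (hy : y ≠ 1) :
    x = y ∧ x * y = 1 := by
  rw [Nat.card_eq_two_iff] at h
  obtain ⟨p, q, hpq, huniv⟩ := h
  have hm : ∀ z : H, z = p ∨ z = q := by
    intro z
    have : z ∈ ({p, q} : Set H) := by rw [huniv]; exact Set.mem_univ z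
    simpa using this
  have key : ∀ s t : H, s ≠ 1 → t ≠ 1 → s = t := by
    intro s t hs ht
    rcases hm s with h1 | h1 <;> rcases hm t with h2 | h2 <;> rcases hm 1 with h3 | h3
    all_goals first
      | exact h1.trans h2.symm
      | exact absurd (h1.trans h3.symm) hs
      | exact absurd (h2.trans h3.symm) ht
  refine ⟨key x y hx hy, ?_⟩
  by_contra h
  have := key (x * y) x h hx
  exact hy (mul_eq_left.mp this)

/-- reflections -/
def sa : Equiv.Perm ℤ := Equiv.neg ℤ
/-- reflections -/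
def sb : Equiv.Perm ℤ := Equiv.subLeft 1

theorem sa_apply (n : ℤ) : sa n = -n := rfl
theorem sb_apply (n : ℤ) : sb n = 1 - n := rfl
theorem sa_sq : sa * sa = 1 := by ext n; simp [sa_apply]
theorem sb_sq : sb * sb = 1 := by ext n; simp [sb_apply]

open Classical in
/-- letters of the dihedral action -/
noncomputable def fab (a b : V) (v : V) (x : G v) : Equiv.Perm ℤ :=
  if x = 1 then 1 else if v = a then sa else if v = b then sb else 1

theorem fab_mul {a b : V} (ha : Nat.card (G a) = 2) (hb : Nat.card (G b) = 2) (v : V)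
    (x y : G v) : fab a b v (x * y) = fab a b v x * fab a b v y := by
  classical
  by_cases hx : x = 1
  · subst hx; simp [fab]
  by_cases hy : y = 1
  · subst hy; simp [fab]
  by_cases hva : v = a
  · subst hva
    have := (two ha hx hy).2
    rw [this]
    simp only [fab, if_neg hx, if_neg hy, if_true, sa_sq]
  by_cases hvb : v = b
  · subst hvb
    have := (two hb hx hy).2
    rw [this]
    simp only [fab, if_neg hx, if_neg hy, if_true, if_neg hva, sb_sq]
  · simp [fab, hva, hvb]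

/-- the dihedral action -/
noncomputable def phi {a b : V} (hab : ¬ Γ.Adj a b) (ha : Nat.card (G a) = 2)
    (hb : Nat.card (G b) = 2) : GP Γ G →* Equiv.Perm ℤ :=
  GP.lift (fun v =>
    { toFun := fab a b v
      map_one' := by simp [fab]
      map_mul' := fab_mul ha hb v }) (by
    classical
    intro u v g k huv
    show fab a b u g * fab a b v k = fab a b v k * fab a b u g
    have : fab a b u g = 1 ∨ fab a b v k = 1 := by
      by_contra h
      push Not at h
      have hu : u = a ∨ u = b := by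
        by_contra h'
        push Not at h'
        exact h.1 (by simp [fab, h'.1, h'.2])
      have hv : v = a ∨ v = b := by
        by_contra h'
        push Not at h'
        exact h.2 (by simp [fab, h'.1, h'.2])
      rcases hu with rfl | rfl <;> rcases hv with rfl | rfl
      · exact huv.ne rfl
      · exact hab huv
      · exact hab huv.symm
      · exact huv.ne rfl
    rcases this with h | h
    · rw [h, one_mul, mul_one]
    · rw [h, one_mul, mul_one])

section
variable {a b : V} (hab : ¬ Γ.Adj a b) (ha : Nat.card (G a) = 2) (hb : Nat.card (G b) = 2)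

theorem phi_inc (v : V) (x : G v) : phi hab ha hb (inc Γ G v x) = fab a b v x := by
  rw [phi, GP.lift_inc]
  rfl

theorem phi_a {x : G a} (hx : x ≠ 1) : phi hab ha hb (inc Γ G a x) = sa := by
  classical
  rw [phi_inc, fab, if_neg hx, if_pos rfl]

theorem phi_b (hne : a ≠ b) {x : G b} (hx : x ≠ 1) : phi hab ha hb (inc Γ G b x) = sb := by
  classical
  rw [phi_inc, fab, if_neg hx, if_neg hne.symm, if_pos rfl]

theorem phi_other {v : V} (h1 : v ≠ a) (h2 : v ≠ b) (x : G v) :
    phi hab ha hb (inc Γ G v x) = 1 := by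
  classical
  rw [phi_inc, fab, if_neg h1, if_neg h2, ite_self]

theorem phi_xy (hne : a ≠ b) {x : G a} (hx : x ≠ 1) {y : G b} (hy : y ≠ 1) (k : ℤ) :
    ∀ n : ℤ, phi hab ha hb ((inc Γ G a x * inc Γ G b y) ^ k) n = n - k := by
  have h1 : ∀ n : ℤ, phi hab ha hb (inc Γ G a x * inc Γ G b y) n = n - 1 := by
    intro n
    rw [map_mul, phi_a hab ha hb hx, phi_b hab ha hb hne hy, Equiv.Perm.mul_apply, sa_apply,
      sb_apply]
    ring
  have h2 : ∀ n : ℤ, (phi hab ha hb (inc Γ G a x * inc Γ G b y))⁻¹ n = n + 1 := by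
    intro n
    rw [Equiv.Perm.inv_eq_iff_eq, h1]
    ring
  rw [map_zpow]
  induction k using Int.induction_on with
  | zero => intro n; rw [zpow_zero]; simp
  | succ k ih =>
    intro n
    rw [zpow_add_one, Equiv.Perm.mul_apply, h1, ih]
    ring
  | pred k ih =>
    intro n
    rw [zpow_sub_one, Equiv.Perm.mul_apply, h2, ih]
    ring

theorem fab_iso (v : V) (x : G v) (m n : ℤ) : |fab a b v x m - fab a b v x n| = |m - n| := by
  classical
  rw [fab]
  split_ifs
  · rfl
  · rw [sa_apply, sa_apply, abs_sub_comm]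
    congr 1
    ring
  · rw [sb_apply, sb_apply, abs_sub_comm]
    congr 1
    ring
  · rfl

theorem fab_zero (v : V) (x : G v) : |fab a b v x 0| ≤ 1 := by
  classical
  rw [fab]
  split_ifs
  · simp
  · simp [sa_apply]
  · simp [sb_apply]
  · simp

theorem phi_iso (g : GP Γ G) (m n : ℤ) : |phi hab ha hb g m - phi hab ha hb g n| = |m - n| := by
  induction g using GP.ind with
  | h1 => rw [map_one]; rfl
  | hm v x g ih => rw [map_mul, Equiv.Perm.mul_apply, Equiv.Perm.mul_apply, phi_inc, fab_iso, ih]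

end

/-- dihedral normal forms -/
theorem dih {a b : V} (ha : Nat.card (G a) = 2) (hb : Nat.card (G b) = 2) {x : G a} (hx : x ≠ 1)
    {y : G b} (hy : y ≠ 1) {g : GP Γ G} (hg : g ∈ par Γ G {a, b}) :
    ∃ k : ℤ, g = (inc Γ G a x * inc Γ G b y) ^ k ∨
      g = (inc Γ G a x * inc Γ G b y) ^ k * inc Γ G a x := by
  set X := inc Γ G a x with hX
  set Y := inc Γ G b y with hY
  have hXX : X * X = 1 := by rw [hX, ← map_mul, (two ha hx hx).2, map_one]
  have hYY : Y * Y = 1 := by rw [hY, ← map_mul, (two hb hy hy).2, map_one]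
  have hXi : X⁻¹ = X := inv_eq_of_mul_eq_one_right hXX
  have hYi : Y⁻¹ = Y := inv_eq_of_mul_eq_one_right hYY
  have hconj : ∀ k : ℤ, X * (X * Y) ^ k = (X * Y) ^ (-k) * X := by
    intro k
    have h1 : X * (X * Y) * X⁻¹ = (X * Y)⁻¹ := by
      rw [mul_inv_rev, hXi, hYi, ← mul_assoc, hXX, one_mul]
    have h2 : X * (X * Y) ^ k * X⁻¹ = (X * Y) ^ (-k) := by
      rw [← conj_zpow, h1, inv_zpow, zpow_neg]
    rw [← h2, inv_mul_cancel_right]
  induction hg using Subgroup.closure_induction with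
  | mem z hz =>
    obtain ⟨v, hv, t, rfl⟩ := hz
    rcases hv with rfl | hv
    · by_cases ht : t = 1
      · exact ⟨0, Or.inl (by rw [ht, map_one, zpow_zero])⟩
      · exact ⟨0, Or.inr (by rw [zpow_zero, one_mul, (two ha ht hx).1])⟩
    · rw [Set.mem_singleton_iff] at hv
      subst hv
      by_cases ht : t = 1
      · exact ⟨0, Or.inl (by rw [ht, map_one, zpow_zero])⟩
      · refine ⟨-1, Or.inr ?_⟩
        rw [zpow_neg_one, mul_inv_rev, hXi, hYi, mul_assoc, hXX, mul_one, (two hb ht hy).1]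
  | one => exact ⟨0, Or.inl (by rw [zpow_zero])⟩
  | mul p q _ _ hp hq =>
    obtain ⟨k, hk⟩ := hp
    obtain ⟨m, hm⟩ := hq
    rcases hk with rfl | rfl <;> rcases hm with rfl | rfl
    · exact ⟨k + m, Or.inl (by rw [zpow_add])⟩
    · exact ⟨k + m, Or.inr (by rw [zpow_add, mul_assoc])⟩
    · exact ⟨k - m, Or.inr (by rw [mul_assoc, hconj, ← mul_assoc, ← zpow_add, sub_eq_add_neg])⟩
    · refine ⟨k - m, Or.inl ?_⟩
      rw [mul_assoc, ← mul_assoc X, hconj, mul_assoc ((X * Y) ^ (-m)), hXX, mul_one, ← zpow_add,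
        sub_eq_add_neg]
  | inv p _ hp =>
    obtain ⟨k, rfl | rfl⟩ := hp
    · exact ⟨-k, Or.inl (by rw [zpow_neg])⟩
    · refine ⟨k, Or.inr ?_⟩
      rw [mul_inv_rev, hXi, ← zpow_neg, hconj, neg_neg]

theorem no_minsq {a b : V} (hab : ¬ Γ.Adj a b)
    (hall : ∀ x y : V, x ≠ y → ¬ Γ.Adj x y → (x = a ∧ y = b) ∨ (x = b ∧ y = a)) (Λ : Set V) :
    ¬ MinSq Γ Λ := by
  intro h
  obtain ⟨_, p, q, r, s, _, _, _, _, hpq, hqr, hrs, hsp, hpr, hqs, hpr', hqs'⟩ := h.prop
  rcases hall p r hpr hpr' with ⟨rfl, rfl⟩ | ⟨rfl, rfl⟩ <;>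
    rcases hall q s hqs hqs' with ⟨rfl, rfl⟩ | ⟨rfl, rfl⟩
  · exact hpq.ne rfl
  · exact hab hpq
  · exact hab hpq.symm
  · exact hpq.ne rfl

theorem cls_all [Finite V] [∀ v, Finite (G v)] [∀ v, Nontrivial (G v)] (h : Cls Γ G) :
    QuasiLine (elec Γ G) ∧ Infinite (GP Γ G) ∧ VirtCyclic (GP Γ G) := by
  obtain ⟨a, b, hne, hab, ha, hb, hall⟩ := h
  obtain ⟨x, hx⟩ := exists_ne (1 : G a)
  obtain ⟨y, hy⟩ := exists_ne (1 : G b)
  set X := inc Γ G a x with hX
  set Y := inc Γ G b y with hY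
  set φ := phi hab ha hb with hφ
  have hXY : ∀ k n : ℤ, φ ((X * Y) ^ k) n = n - k := fun k n => phi_xy hab ha hb hne hx hy k n
  have hXn : ∀ n, φ X n = -n := by
    intro n
    rw [hφ, hX, phi_a hab ha hb hx, sa_apply]
  have hV1 : V1 Γ ⊆ {a, b} := by
    rintro v ⟨u, hu⟩
    rw [SimpleGraph.compl_adj] at hu
    rcases hall v u hu.1 hu.2 with ⟨h, _⟩ | ⟨h, _⟩
    · exact Or.inl h
    · exact Or.inr h
  obtain ⟨T, hT, hdec⟩ := fin_dec (Γ := Γ) (G := G) hV1
  obtain ⟨B, hB⟩ := fin_bd hT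
  have hgens : ∀ g ∈ gens Γ G, ∃ (v : V) (z : G v), g = inc Γ G v z := by
    rintro g (hg | ⟨Λ, hΛ, _⟩)
    · exact hg
    · exact absurd hΛ (no_minsq hab hall Λ)
  -- the map
  have hiso : ∀ g m n, |φ g m - φ g n| = |m - n| := phi_iso hab ha hb
  have hdiff : ∀ g k : GP Γ G, |φ (g * k) 0 - φ g 0| = |φ k 0| := by
    intro g k
    rw [map_mul, Equiv.Perm.mul_apply, hiso, sub_zero]
  have hlet : ∀ g ∈ gens Γ G, |φ g 0| ≤ 1 := by
    intro g hg
    obtain ⟨v, z, rfl⟩ := hgens g hg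
    rw [hφ, phi_inc]
    exact fab_zero v z
  have hlip : ∀ p q : GP Γ G, |φ p 0 - φ q 0| ≤ (elec Γ G).dist p q := by
    have hw : ∀ (p q : GP Γ G) (c : (elec Γ G).Walk p q), |φ p 0 - φ q 0| ≤ c.length := by
      intro p q c
      induction c with
      | nil => simp
      | @cons p r q h c ih =>
        have h1 : |φ p 0 - φ r 0| ≤ 1 := by
          have h' := (SimpleGraph.fromRel_adj _ _ _).mp h
          rcases h'.2 with h2 | h2
          · have h3 := hdiff p (p⁻¹ * r)
            rw [mul_inv_cancel_left] at h3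
            rw [abs_sub_comm, h3]
            exact hlet _ h2
          · have h3 := hdiff r (r⁻¹ * p)
            rw [mul_inv_cancel_left] at h3
            rw [h3]
            exact hlet _ h2
        rw [SimpleGraph.Walk.length_cons]
        push_cast
        calc |φ p 0 - φ q 0| ≤ |φ p 0 - φ r 0| + |φ r 0 - φ q 0| := abs_sub_le _ _ _
          _ ≤ c.length + 1 := by linarith
    intro p q
    obtain ⟨c, hc⟩ := (elec_conn (Γ := Γ) (G := G)).exists_walk_length_eq_dist p q
    rw [← hc]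
    exact hw p q c
  have hone : ∀ s, s ∈ gens Γ G → ∀ z, (elec Γ G).dist z (z * s) ≤ 1 := by
    intro s hs z
    by_cases h : s = 1
    · rw [h, mul_one, SimpleGraph.dist_self]; omega
    · rw [SimpleGraph.dist_eq_one_iff_adj.mpr (elec_adj_mul z hs h)]
  have hXg : X ∈ gens Γ G := Or.inl ⟨a, x, rfl⟩
  have hYg : Y ∈ gens Γ G := Or.inl ⟨b, y, rfl⟩
  have hXYd : ∀ z, (elec Γ G).dist z (z * (X * Y)) ≤ 2 := by
    intro z
    calc (elec Γ G).dist z (z * (X * Y)) ≤ (elec Γ G).dist z (z * X) +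
          (elec Γ G).dist (z * X) (z * (X * Y)) := elec_conn.dist_triangle
      _ ≤ 1 + 1 := Nat.add_le_add (hone X hXg z) (by rw [← mul_assoc]; exact hone Y hYg _)
  have hpow : ∀ (n : ℕ) (z : GP Γ G), (elec Γ G).dist z (z * (X * Y) ^ n) ≤ 2 * n := by
    intro n
    induction n with
    | zero => intro z; rw [pow_zero, mul_one, SimpleGraph.dist_self]
    | succ n ih =>
      intro z
      calc (elec Γ G).dist z (z * (X * Y) ^ (n + 1)) ≤ (elec Γ G).dist z (z * (X * Y) ^ n) +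
            (elec Γ G).dist (z * (X * Y) ^ n) (z * (X * Y) ^ (n + 1)) := elec_conn.dist_triangle
        _ ≤ 2 * n + 2 := Nat.add_le_add (ih z) (by rw [pow_succ, ← mul_assoc]; exact hXYd _)
        _ = 2 * (n + 1) := by ring
  have hzpow : ∀ (k : ℤ) (z : GP Γ G), ((elec Γ G).dist z (z * (X * Y) ^ k) : ℤ) ≤ 2 * |k| := by
    intro k z
    rcases le_total 0 k with h | h
    · obtain ⟨n, rfl⟩ := Int.eq_ofNat_of_zero_le h
      rw [abs_of_nonneg h, zpow_natCast]
      exact_mod_cast hpow n z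
    · obtain ⟨n, hn⟩ := Int.eq_ofNat_of_zero_le (neg_nonneg.mpr h)
      have hk : k = -(n : ℤ) := by omega
      subst hk
      rw [abs_of_nonpos h, neg_neg, SimpleGraph.dist_comm]
      have := hpow n (z * (X * Y) ^ (-(n : ℤ)))
      rw [mul_assoc, ← zpow_natCast, ← zpow_add, neg_add_cancel, zpow_zero, mul_one] at this
      exact_mod_cast this
  have hBt : ∀ t ∈ T, |φ t 0| ≤ B := by
    intro t ht
    have h1 := hlip 1 (1 * t)
    have h2 := hB t ht 1
    rw [map_one, one_mul] at h1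
    rw [one_mul] at h2
    have h3 : |(1 : Equiv.Perm ℤ) 0 - φ t 0| = |φ t 0| := by simp
    rw [h3] at h1
    exact h1.trans (by exact_mod_cast h2)
  have hlow : ∀ p q : GP Γ G, ((elec Γ G).dist p q : ℤ) ≤ 2 * |φ p 0 - φ q 0| + (3 * B + 2) := by
    intro p q
    obtain ⟨g0, hg0, t, ht, hg⟩ := hdec (p⁻¹ * q)
    have hq : q = p * g0 * t := by rw [mul_assoc, ← hg]; group
    have hd1 : (elec Γ G).dist (p * g0) q ≤ B := by rw [hq]; exact hB t ht _
    have htri : (elec Γ G).dist p q ≤ (elec Γ G).dist p (p * g0) + (elec Γ G).dist (p * g0) q :=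
      elec_conn.dist_triangle
    have hdq : |φ p 0 - φ q 0| = |φ (g0 * t) 0| := by
      rw [abs_sub_comm, ← hdiff p (g0 * t), ← mul_assoc, ← hq]
    have ht0 := hBt t ht
    rw [abs_le] at ht0
    obtain ⟨k, hk | hk⟩ := dih (Γ := Γ) ha hb hx hy hg0
    · have h1 := hzpow k p
      rw [← hk] at h1
      have h2 : φ (g0 * t) 0 = φ t 0 - k := by
        rw [map_mul, Equiv.Perm.mul_apply, hk]
        exact hXY k _
      have h3 : |k| ≤ |φ (g0 * t) 0| + B := by
        rw [h2, abs_le]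
        constructor <;>
        · have a1 := abs_le.mp (le_refl |φ t 0 - k|)
          linarith [a1.1, a1.2, ht0.1, ht0.2]
      rw [hdq]
      have h4 : ((elec Γ G).dist (p * g0) q : ℤ) ≤ B := by exact_mod_cast hd1
      have h5 : ((elec Γ G).dist p q : ℤ) ≤ (elec Γ G).dist p (p * g0) +
        (elec Γ G).dist (p * g0) q := by exact_mod_cast htri
      linarith
    · have h1 := hzpow k p
      have h1' : ((elec Γ G).dist p (p * g0) : ℤ) ≤ 2 * |k| + 1 := by
        have a1 : (elec Γ G).dist p (p * g0) ≤ (elec Γ G).dist p (p * (X * Y) ^ k) +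
          (elec Γ G).dist (p * (X * Y) ^ k) (p * g0) := elec_conn.dist_triangle
        have a2 : (elec Γ G).dist (p * (X * Y) ^ k) (p * g0) ≤ 1 := by
          rw [hk, ← mul_assoc]
          exact hone X hXg _
        have a3 : ((elec Γ G).dist p (p * g0) : ℤ) ≤ (elec Γ G).dist p (p * (X * Y) ^ k) +
          (elec Γ G).dist (p * (X * Y) ^ k) (p * g0) := by exact_mod_cast a1
        have a4 : ((elec Γ G).dist (p * (X * Y) ^ k) (p * g0) : ℤ) ≤ 1 := by exact_mod_cast a2
        linarith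
      have h2 : φ (g0 * t) 0 = -φ t 0 - k := by
        rw [map_mul, Equiv.Perm.mul_apply, hk, map_mul, Equiv.Perm.mul_apply]
        have := hXn (φ t 0)
        rw [← hX, this]
        exact hXY k _
      have h3 : |k| ≤ |φ (g0 * t) 0| + B := by
        rw [h2, abs_le]
        constructor <;>
        · have a1 := abs_le.mp (le_refl |-φ t 0 - k|)
          linarith [a1.1, a1.2, ht0.1, ht0.2]
      rw [hdq]
      have h4 : ((elec Γ G).dist (p * g0) q : ℤ) ≤ B := by exact_mod_cast hd1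
      have h5 : ((elec Γ G).dist p q : ℤ) ≤ (elec Γ G).dist p (p * g0) +
        (elec Γ G).dist (p * g0) q := by exact_mod_cast htri
      linarith
  refine ⟨⟨elec_conn, fun g => (φ g 0 : ℝ), 2, 3 * B + 2, by norm_num, by positivity, ?_, ?_⟩,
    ?_, ?_⟩
  · intro p q
    have h1 : (|φ p 0 - φ q 0| : ℝ) ≤ (elec Γ G).dist p q := by exact_mod_cast hlip p q
    have h2 : ((elec Γ G).dist p q : ℝ) ≤ 2 * |(φ p 0 : ℝ) - φ q 0| + (3 * B + 2) := by
      exact_mod_cast hlow p q
    constructor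
    · have h3 : (0 : ℝ) ≤ (elec Γ G).dist p q := by positivity
      have h4 : (0 : ℝ) ≤ (B : ℝ) := by positivity
      linarith
    · exact h2
  · intro t
    refine ⟨(X * Y) ^ (-⌊t⌋), ?_⟩
    show |((φ ((X * Y) ^ (-⌊t⌋)) 0 : ℤ) : ℝ) - t| ≤ _
    rw [hXY]
    have h1 := Int.floor_le t
    have h2 := Int.lt_floor_add_one t
    have h4 : (0 : ℝ) ≤ (B : ℝ) := by positivity
    push_cast
    rw [abs_le]
    constructor <;> linarith
  · refine Infinite.of_injective (fun k : ℤ => (X * Y) ^ k) ?_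
    intro k m hkm
    have h1 := hXY k 0
    have h2 := hXY m 0
    have h3 : (X * Y) ^ k = (X * Y) ^ m := hkm
    rw [h3] at h1
    linarith
  · refine ⟨Subgroup.zpowers (X * Y), inferInstance, ?_⟩
    have hfin : Finite (GP Γ G ⧸ Subgroup.zpowers (X * Y)) := by
      rw [← Set.finite_univ_iff]
      refine Set.Finite.subset (Set.Finite.image2 (fun t s : GP Γ G =>
        (QuotientGroup.mk (t⁻¹ * s⁻¹) : GP Γ G ⧸ Subgroup.zpowers (X * Y))) hT
        (Set.toFinite ({1, X} : Set (GP Γ G)))) ?_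
      intro z _
      obtain ⟨g, rfl⟩ := QuotientGroup.mk_surjective z
      obtain ⟨g0, hg0, t, ht, hg⟩ := hdec g⁻¹
      have hgg : g = t⁻¹ * g0⁻¹ := by rw [← mul_inv_rev, ← hg, inv_inv]
      obtain ⟨k, hk | hk⟩ := dih (Γ := Γ) ha hb hx hy hg0
      · refine ⟨t, ht, 1, by simp, ?_⟩
        show (QuotientGroup.mk _ : GP Γ G ⧸ Subgroup.zpowers (X * Y)) = _
        have hk' : g0 = (X * Y) ^ k := hk
        rw [QuotientGroup.eq, hgg, hk']
        refine ⟨-k, ?_⟩
        show (X * Y) ^ (-k) = _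
        rw [zpow_neg]
        generalize (X * Y) ^ k = Z
        group
      · refine ⟨t, ht, X, by simp, ?_⟩
        show (QuotientGroup.mk _ : GP Γ G ⧸ Subgroup.zpowers (X * Y)) = _
        have hk' : g0 = (X * Y) ^ k * X := hk
        rw [QuotientGroup.eq, hgg, hk']
        refine ⟨-k, ?_⟩
        show (X * Y) ^ (-k) = _
        rw [zpow_neg]
        generalize (X * Y) ^ k = Z
        group
    exact Subgroup.finiteIndex_of_finite_quotient

theorem vc_lem {H : Type*} [Group H] (h : VirtCyclic H) (g1 g2 : H)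
    (hc : ∀ m n : ℤ, g1 ^ m = g2 ^ n → m = 0 ∧ n = 0) : False := by
  obtain ⟨K, hK, hfin⟩ := h
  obtain ⟨⟨z, hzK⟩, hz⟩ := hK.exists_generator
  have key : ∀ g : H, ∃ n : ℕ, 0 < n ∧ ∃ p : ℤ, g ^ n = z ^ p := by
    intro g
    obtain ⟨n, hn, hn2, _⟩ := Subgroup.exists_pow_mem_of_index_ne_zero hfin.index_ne_zero g
    obtain ⟨p, hp⟩ := hz ⟨g ^ n, by simpa using ‹_›⟩
    exact ⟨n, hn, p, (congrArg Subtype.val hp).symm⟩
  obtain ⟨n, hn, p, h1⟩ := key g1
  obtain ⟨m, hm, q, h2⟩ := key g2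
  have h3 : g1 ^ ((n : ℤ) * q) = g2 ^ ((m : ℤ) * p) := by
    rw [zpow_mul, zpow_natCast, h1, zpow_mul g2, zpow_natCast, h2, ← zpow_mul, ← zpow_mul, mul_comm]
  have h4 := (hc _ _ h3).1
  have hq : q = 0 := by
    rcases mul_eq_zero.mp h4 with h | h
    · omega
    · exact h
  subst hq
  have h5 : g1 ^ (0 : ℤ) = g2 ^ (m : ℤ) := by rw [zpow_natCast, h2, zpow_zero, zpow_zero]
  have := (hc _ _ h5).2
  omega

/-- alternating sequence -/
def alt {a b : V} (x : G a) (y : G b) (n : ℕ) : Σ v, G v := if n % 2 = 0 then ⟨a, x⟩ else ⟨b, y⟩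

omit [∀ v, Group (G v)] in
theorem alt_even {a b : V} (x : G a) (y : G b) (m : ℕ) : alt x y (2 * m) = ⟨a, x⟩ :=
  if_pos (by omega)

omit [∀ v, Group (G v)] in
theorem alt_odd {a b : V} (x : G a) (y : G b) (m : ℕ) : alt x y (2 * m + 1) = ⟨b, y⟩ :=
  if_neg (by omega)

theorem alt_rigid {a b : V} (hab : Γᶜ.Adj a b) {x : G a} {y : G b} (hx : x ≠ 1) (hy : y ≠ 1) :
    Rigid Γ (alt x y) := by
  constructor
  · intro n
    rcases Nat.even_or_odd' n with ⟨m, rfl | rfl⟩
    · rw [alt_even]; exact hx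
    · rw [alt_odd]; exact hy
  · intro n
    rcases Nat.even_or_odd' n with ⟨m, rfl | rfl⟩
    · rw [alt_even, alt_odd]; exact hab
    · have : 2 * m + 1 + 1 = 2 * (m + 1) := by ring
      rw [this, alt_even, alt_odd]; exact hab.symm

theorem alt_pos {a b : V} (x : G a) (y : G b) (m : ℕ) :
    pos (alt x y) (1 : GP Γ G) (2 * m) = (inc Γ G b y * inc Γ G a x) ^ m := by
  induction m with
  | zero => rfl
  | succ m ih =>
    have : 2 * (m + 1) = 2 * m + 1 + 1 := by ring
    rw [this]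
    show inc Γ G (alt x y (2 * m + 1)).1 (alt x y (2 * m + 1)).2 *
      (inc Γ G (alt x y (2 * m)).1 (alt x y (2 * m)).2 * pos (alt x y) 1 (2 * m)) = _
    rw [alt_odd, alt_even, ih, pow_succ', mul_assoc]

theorem crd_alt {a b : V} (hab : Γᶜ.Adj a b) {x : G a} {y : G b} (hx : x ≠ 1) (hy : y ≠ 1)
    {m : ℤ} (hm : 0 < m) :
    crd (cl Γ G a 1) ((inc Γ G b y * inc Γ G a x) ^ m) = ms a x := by
  obtain ⟨n, rfl⟩ := Int.eq_ofNat_of_zero_le hm.le
  have hn : 0 < n := by omega
  rw [zpow_natCast, ← alt_pos]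
  have h := crd_gt (p := (1 : GP Γ G)) (alt_rigid hab hx hy) (k := 0) (n := 2 * n) (by omega)
  have h0 : hh (alt x y) (1 : GP Γ G) 0 = cl Γ G a 1 := rfl
  rw [h0] at h
  rw [h]
  show ms a x * crd (cl Γ G a 1) 1 = _
  rw [crd_one, mul_one]

theorem crd_alt_neg {a b : V} (hab : Γᶜ.Adj a b) {x : G a} {y : G b} (hx : x ≠ 1) (hy : y ≠ 1)
    {m : ℤ} (hm : m ≤ 0) :
    crd (cl Γ G a 1) ((inc Γ G b y * inc Γ G a x) ^ m) = 1 := by
  obtain ⟨n, hn⟩ := Int.eq_ofNat_of_zero_le (neg_nonneg.mpr hm)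
  have hm' : m = -(n : ℤ) := by omega
  subst hm'
  have h1 : (inc Γ G b y * inc Γ G a x) ^ (-(n : ℤ)) = (inc Γ G a x⁻¹ * inc Γ G b y⁻¹) ^ n := by
    rw [zpow_neg, ← inv_zpow, zpow_natCast, mul_inv_rev, map_inv, map_inv]
  rw [h1, ← alt_pos]
  have h := first_lem (p := (1 : GP Γ G))
    (alt_rigid hab.symm (inv_ne_one.mpr hy) (inv_ne_one.mpr hx)) (b := a) hab.symm (2 * n)
  rw [h, crd_one]

theorem crd_alt_other {a b c : V} (hb : a ≠ b) (hc : a ≠ c) (y : G b) (z : G c) (m : ℤ) :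
    crd (cl Γ G a 1) ((inc Γ G b y * inc Γ G c z) ^ m) = 1 := by
  have hmem : (inc Γ G b y * inc Γ G c z) ^ m ∈ par Γ G {b, c} :=
    zpow_mem (mul_mem (mem_par (by simp) y) (mem_par (by simp) z)) m
  have h := crd_par (C := cl Γ G a 1) (Λ := {b, c}) (by
    rw [cl_ty]
    simp only [Set.mem_insert_iff, Set.mem_singleton_iff, not_or]
    exact ⟨hb, hc⟩) hmem 1
  rw [mul_one] at h
  rw [h, crd_one]

theorem vc_cls [Finite V] [∀ v, Finite (G v)] [∀ v, Nontrivial (G v)]
    (hinf : Infinite (GP Γ G)) (hvc : VirtCyclic (GP Γ G)) : Cls Γ G := by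
  have hne : (V1 Γ).Nonempty := by
    by_contra h
    rw [Set.not_nonempty_iff_eq_empty] at h
    obtain ⟨T, hT, hdec⟩ := fin_dec (Γ := Γ) (G := G) (Λ0 := ∅) (by rw [h])
    have hpar : par Γ G ∅ = ⊥ := by
      rw [par, eq_bot_iff, Subgroup.closure_le]
      rintro _ ⟨v, hv, _⟩
      exact absurd hv (Set.notMem_empty v)
    apply Set.infinite_univ (α := GP Γ G)
    refine hT.subset ?_
    intro g _
    obtain ⟨g0, hg0, t, ht, rfl⟩ := hdec g
    rw [hpar, Subgroup.mem_bot] at hg0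
    rw [hg0, one_mul]
    exact ht
  rcases trich (G := G) hne with h | ⟨b, a, c, α, γ, hab, hcb, hα, hγ, hne'⟩ |
      ⟨a, b, c, d, hab, hcd, hca, hcb, hda, hdb, _, _, ca, cb, cc, cd⟩
  · exact h
  · exfalso
    obtain ⟨e, he⟩ := exists_ne (1 : G b)
    apply vc_lem hvc (inc Γ G b e * inc Γ G a α) (inc Γ G b e * inc Γ G c γ)
    have hpos : ∀ m n : ℤ, 0 < m →
        (inc Γ G b e * inc Γ G a α) ^ m ≠ (inc Γ G b e * inc Γ G c γ) ^ n := by
      intro m n hm h
      have h1 := crd_alt hab hα he hm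
      rw [h] at h1
      by_cases hac : a = c
      · subst hac
        rcases lt_or_ge 0 n with hn | hn
        · rw [crd_alt hab hγ he hn] at h1
          apply hne'
          rw [ms_inj h1]
        · rw [crd_alt_neg hab hγ he hn] at h1
          exact ms_ne hα h1.symm
      · rw [crd_alt_other hab.ne hac] at h1
        exact ms_ne hα h1.symm
    intro m n h
    have hm : m = 0 := by
      rcases lt_trichotomy m 0 with hm | hm | hm
      · exfalso
        apply hpos (-m) (-n) (by omega)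
        rw [zpow_neg, zpow_neg, h]
      · exact hm
      · exact absurd h (hpos m n hm)
    refine ⟨hm, ?_⟩
    subst hm
    rw [zpow_zero] at h
    rcases lt_trichotomy n 0 with hn | hn | hn
    · exfalso
      have h1 := crd_alt hcb hγ he (m := -n) (by omega)
      rw [zpow_neg, ← h, inv_one, crd_one] at h1
      exact ms_ne hγ h1.symm
    · exact hn
    · exfalso
      have h1 := crd_alt hcb hγ he hn
      rw [← h, crd_one] at h1
      exact ms_ne hγ h1.symm
  · exfalso
    obtain ⟨x, hx⟩ := exists_ne (1 : G a)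
    obtain ⟨y, hy⟩ := exists_ne (1 : G b)
    obtain ⟨z, hz⟩ := exists_ne (1 : G c)
    obtain ⟨t, ht⟩ := exists_ne (1 : G d)
    have hab' := (SimpleGraph.compl_adj _ _ _).mp hab
    have hcd' := (SimpleGraph.compl_adj _ _ _).mp hcd
    apply vc_lem hvc (inc Γ G a x * inc Γ G b y) (inc Γ G c z * inc Γ G d t)
    intro m n h
    have h1 := phi_xy hab'.2 ca cb hab'.1 hx hy m 0
    have h2 := phi_xy hcd'.2 cc cd hcd'.1 hz ht n 0
    have h3 : phi hab'.2 ca cb ((inc Γ G c z * inc Γ G d t) ^ n) = 1 := by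
      rw [map_zpow, map_mul, phi_other _ _ _ hca hcb, phi_other _ _ _ hda hdb, one_mul, one_zpow]
    have h4 : phi hcd'.2 cc cd ((inc Γ G a x * inc Γ G b y) ^ m) = 1 := by
      rw [map_zpow, map_mul, phi_other _ _ _ hca.symm hda.symm,
        phi_other _ _ _ hcb.symm hdb.symm, one_mul, one_zpow]
    rw [h, h3] at h1
    rw [← h, h4] at h2
    simp only [Equiv.Perm.coe_one, id_eq] at h1 h2
    constructor <;> omega

end Pool.R640.GE
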