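import Pool.Agent.R640.GE.Seq

set_option autoImplicit false

namespace Pool.R640.GE

open Monoid

universe u w

variable {V : Type u} {Γ : SimpleGraph V} {G : V → Type w} [∀ v, Group (G v)]

/-- every generator avoids some vertex of `W` -/
theorem gens_par {W : Set V} (h1 : ∀ u, ∃ w ∈ W, w ≠ u)
    (h2 : ∀ Λ, MinSq Γ Λ → ∃ w ∈ W, w ∉ Λ) {x : GP Γ G} (hx : x ∈ gens Γ G) :
    ∃ w ∈ W, ∃ Λ : Set V, w ∉ Λ ∧ x ∈ par Γ G Λ := by
  rcases hx with ⟨v, g, rfl⟩ | ⟨Λ, hΛ, hx⟩
  · obtain ⟨w, hw, hne⟩ := h1 v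
    exact ⟨w, hw, {v}, hne, mem_par (Set.mem_singleton v) g⟩
  · obtain ⟨w, hw, hw2⟩ := h2 Λ hΛ
    exact ⟨w, hw, Λ, hw2, hx⟩

theorem elec_adj_mul (x : GP Γ G) {s : GP Γ G} (hs : s ∈ gens Γ G) (h1 : s ≠ 1) :
    (elec Γ G).Adj x (x * s) := by
  rw [elec, SimpleGraph.fromRel_adj]
  refine ⟨fun h => h1 (mul_eq_left.mp h.symm), Or.inl ?_⟩
  rw [inv_mul_cancel_left]
  exact hs

theorem elec_reach (g : GP Γ G) : ∀ x, (elec Γ G).Reachable x (x * g) := by
  induction g using GP.ind with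
  | h1 => intro x; rw [mul_one]
  | hm v y g ih =>
    intro x
    rw [← mul_assoc]
    refine SimpleGraph.Reachable.trans ?_ (ih _)
    by_cases h : inc Γ G v y = 1
    · rw [h, mul_one]
    · exact (elec_adj_mul x (Or.inl ⟨v, y, rfl⟩) h).reachable

theorem elec_conn : (elec Γ G).Connected := by
  have : Nonempty (GP Γ G) := ⟨1⟩
  refine ⟨fun x y => ?_⟩
  have := elec_reach (x⁻¹ * y) x
  rwa [mul_inv_cancel_left] at this

theorem walk_D {W : Set V} (h1 : ∀ u, ∃ w ∈ W, w ≠ u)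
    (h2 : ∀ Λ, MinSq Γ Λ → ∃ w ∈ W, w ∉ Λ) {L : ℕ → Σ v, G v} (hL : Rigid Γ L) {l : ℕ}
    (hr : Recur L W l) (p : GP Γ G) {x y : GP Γ G} (c : (elec Γ G).Walk x y) :
    (Dset L p l x⁻¹ y⁻¹).encard ≤ c.length := by
  induction c with
  | @nil a =>
    have : Dset L p l a⁻¹ a⁻¹ = ∅ := by
      ext t
      simp [Dset]
    rw [this]
    simp
  | @cons a b c hab q ih =>
    refine le_trans (Dset_trans l _ b⁻¹ _) ?_
    have hstep : (Dset L p l a⁻¹ b⁻¹).encard ≤ 1 := by
      have hab' := (SimpleGraph.fromRel_adj _ _ _).mp hab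
      rcases hab'.2 with h | h
      · obtain ⟨w, hw, Λ, hΛ, hs⟩ := gens_par h1 h2 h
        have := Dset_seg (p := p) hL hr hw hΛ hs b⁻¹
        rwa [mul_inv_cancel_right] at this
      · obtain ⟨w, hw, Λ, hΛ, hs⟩ := gens_par h1 h2 h
        have := Dset_seg (p := p) hL hr hw hΛ hs a⁻¹
        rw [mul_inv_cancel_right] at this
        rwa [Dset_symm] at this
    rw [SimpleGraph.Walk.length_cons]
    push_cast
    rw [add_comm]
    exact add_le_add ih hstep

theorem dist_D {W : Set V} (h1 : ∀ u, ∃ w ∈ W, w ≠ u)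
    (h2 : ∀ Λ, MinSq Γ Λ → ∃ w ∈ W, w ∉ Λ) {L : ℕ → Σ v, G v} (hL : Rigid Γ L) {l : ℕ}
    (hr : Recur L W l) (p : GP Γ G) (x y : GP Γ G) :
    (Dset L p l x⁻¹ y⁻¹).encard ≤ ((elec Γ G).dist x y : ℕ∞) := by
  obtain ⟨c, hc⟩ := (elec_conn (Γ := Γ) (G := G)).exists_walk_length_eq_dist x y
  rw [← hc]
  exact walk_D h1 h2 hL hr p c

/-- `q` is on the early side of all cliques of the ray except possibly the first -/
def Early (L : ℕ → Σ v, G v) (p q : GP Γ G) : Prop :=
  ∀ j, 1 ≤ j → crd (hh L p j) q = crd (hh L p j) (pos L p j)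

theorem dist_ge {W : Set V} (h1 : ∀ u, ∃ w ∈ W, w ≠ u)
    (h2 : ∀ Λ, MinSq Γ Λ → ∃ w ∈ W, w ∉ Λ) {L : ℕ → Σ v, G v} (hL : Rigid Γ L) {l : ℕ}
    (hr : Recur L W l) {p q : GP Γ G} (hq : Early L p q) (N : ℕ) {T : ℕ} (hT : 1 + l * N < T) :
    N ≤ (elec Γ G).dist (pos L p T)⁻¹ q⁻¹ := by
  have h := dist_D h1 h2 hL hr p (pos L p T)⁻¹ q⁻¹
  rw [inv_inv, inv_inv] at h
  have hsub : (Set.Iio N) ⊆ Dset L p l (pos L p T) q := by
    intro t ht
    have ht' : t < N := ht
    have hlt : 1 + l * t < T := by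
      have : l * t ≤ l * N := Nat.mul_le_mul_left l ht'.le
      omega
    show crd (hh L p (1 + l * t)) _ ≠ crd (hh L p (1 + l * t)) _
    rw [hq (1 + l * t) (by omega)]
    exact crd_gt_ne hL hlt
  have h3 := (Set.encard_le_encard hsub).trans h
  have h4 : (Set.Iio N).encard = (N : ℕ∞) := by
    rw [Set.encard_eq_coe_toFinset_card]
    simp
  rw [h4] at h3
  exact_mod_cast h3

theorem sig_ms {a c : V} {x : G a} {y : G c} (hx : x ≠ 1) (h : ms a x = ms c y) :
    (⟨a, x⟩ : Σ v, G v) = ⟨c, y⟩ := by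
  classical
  by_cases hac : a = c
  · subst hac
    rw [ms_inj h]
  · exfalso
    have h1 := congrFun h a
    rw [ms, ms, Pi.mulSingle_eq_same, Pi.mulSingle_eq_of_ne hac] at h1
    exact hx h1

/-- branching at the same point -/
theorem early_branch {L L' : ℕ → Σ v, G v} (hL : Rigid Γ L) (hL' : Rigid Γ L') {b : V}
    (hb : (L 1).1 = b) (hb' : Γᶜ.Adj (L' 0).1 b) (hne : L 0 ≠ L' 0) (p : GP Γ G) (t : ℕ) :
    Early L p (pos L' p t) := by
  intro j hj
  have key : ∀ n, hh L' p n ≠ hh L p 1 := by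
    intro n he
    have ht : (L' n).1 = b := (cl_type he).trans hb
    rcases Nat.eq_zero_or_pos n with h | h
    · subst h
      exact hb'.ne ht
    · have he' : cl Γ G b (pos L' p n) = cl Γ G b (pos L p 1) := by
        have h1 : hh L' p n = cl Γ G b (pos L' p n) := by rw [← ht]; rfl
        have h2 : hh L p 1 = cl Γ G b (pos L p 1) := by rw [← hb]; rfl
        rw [← h1, he, h2]
      rw [cl_eq] at he'
      have h0 : (hh L' p 0).ty ∉ str Γ b := not_str hb'.symm
      have h1 := crd_par (C := hh L' p 0) h0 he' (pos L' p n)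
      rw [inv_mul_cancel_right, crd_gt hL' h] at h1
      have h2 : pos L p 1 = inc Γ G (L 0).1 (L 0).2 * p := rfl
      rw [h2] at h1
      by_cases hc : cl Γ G (L 0).1 p = hh L' p 0
      · rw [← hc, crd_self, hc] at h1
        have h3 : ms (L 0).1 (L 0).2 = ms (L' 0).1 (L' 0).2 := mul_right_cancel h1
        exact hne (sig_ms (hL.ne 0) h3)
      · rw [crd_ne hc] at h1
        exact ms_ne (hL'.ne 0) (mul_eq_right.mp h1.symm)
  have h0 : crd (hh L p 1) p = crd (hh L p 1) (pos L p 1) :=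
    crd_le (p := p) hL (k := 1) (n := 0) (by omega)
  rw [never hL h0 key hj t]
  exact crd_le (p := p) hL (k := j) (n := 0) (by omega)

/-- prepend a letter -/
def consL (x : Σ v, G v) (L : ℕ → Σ v, G v) : ℕ → Σ v, G v
  | 0 => x
  | n + 1 => L n

theorem pos_consL (x : Σ v, G v) (L : ℕ → Σ v, G v) (p : GP Γ G) (n : ℕ) :
    pos (consL x L) p (n + 1) = pos L (inc Γ G x.1 x.2 * p) n := by
  induction n with
  | zero => rfl
  | succ n ih =>
    show inc Γ G _ _ * pos (consL x L) p (n + 1) = _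
    rw [ih]
    rfl

/-- across one letter -/
theorem early_across {L L' : ℕ → Σ v, G v} (hL : Rigid Γ L) (hL' : Rigid Γ L') {b : V}
    (hb : Γᶜ.Adj (L 0).1 b) (hb' : Γᶜ.Adj (L' 0).1 b) {e : G b} (he : e ≠ 1) (p : GP Γ G)
    (t : ℕ) : Early L p (pos L' (inc Γ G b e * p) t) := by
  intro j _
  have hq : cl Γ G b (inc Γ G b e * p) = cl Γ G b p := cl_left (mem_par (self_mem_str b) e)
  have key : ∀ n, hh (consL ⟨b, e⟩ L') p n ≠ hh L p 0 := by
    intro n hn
    cases n with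
    | zero =>
      have : b = (L 0).1 := cl_type hn
      exact hb.ne this.symm
    | succ n =>
      have ht : (L' n).1 = (L 0).1 := cl_type hn
      have he' : cl Γ G (L 0).1 (pos L' (inc Γ G b e * p) n) = cl Γ G (L 0).1 p := by
        have h1 : hh (consL ⟨b, e⟩ L') p (n + 1) =
            cl Γ G (L 0).1 (pos L' (inc Γ G b e * p) n) := by
          rw [← ht, ← pos_consL ⟨b, e⟩ L' p n]; rfl
        rw [← h1, hn]; rfl
      rw [cl_eq] at he'
      have h0 : (cl Γ G b p).ty ∉ str Γ (L 0).1 := not_str hb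
      have h1 := crd_par (C := cl Γ G b p) h0 he' (pos L' (inc Γ G b e * p) n)
      rw [inv_mul_cancel_right] at h1
      have h2 := first_lem (p := inc Γ G b e * p) hL' hb' n
      rw [hq] at h2
      rw [h2] at h1
      exact crd_self_ne he rfl h1.symm
  have h0 : crd (hh L p 0) p = crd (hh L p 0) (pos L p 0) := rfl
  have h3 := never hL h0 key (Nat.zero_le j) (t + 1)
  rw [pos_consL] at h3
  rw [h3]
  exact crd_le (p := p) hL (k := j) (n := 0) (by omega)

/-- the abstract obstruction to being a quasi-line -/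
theorem not_ql {α : Type*} (X : SimpleGraph α) (r : Fin 3 → ℕ → α)
    (h1 : ∀ i n, X.dist (r i n) (r i (n + 1)) ≤ 1) (h2 : ∀ i j, X.dist (r i 0) (r j 0) ≤ 1)
    (h3 : ∀ N : ℕ, ∃ T, ∀ i j, i ≠ j → ∀ t, N ≤ X.dist (r i T) (r j t)) : ¬ QuasiLine X := by
  rintro ⟨_, f, L, C, hL, hC, hf, _⟩
  obtain ⟨N, hN⟩ := exists_nat_gt (L * (L + C) + C)
  obtain ⟨T, hT⟩ := h3 N
  have hstep : ∀ x y, X.dist x y ≤ 1 → |f x - f y| ≤ L + C := by
    intro x y hxy
    have h := (hf x y).1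
    have h' : (X.dist x y : ℝ) ≤ 1 := by exact_mod_cast hxy
    nlinarith
  have hfar : ∀ x y, N ≤ X.dist x y → L + C < |f x - f y| := by
    intro x y hxy
    by_contra hle
    push Not at hle
    have h := (hf x y).2
    have h' : (N : ℝ) ≤ X.dist x y := by exact_mod_cast hxy
    nlinarith
  -- rays stay on one side
  have side : ∀ (i : Fin 3) (c : ℝ), (∀ t, L + C < |f (r i t) - c|) →
      ∀ t, (f (r i t) < c ↔ f (r i 0) < c) := by
    intro i c hc t
    induction t with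
    | zero => exact Iff.rfl
    | succ t ih =>
      rw [← ih]
      have a1 := hstep _ _ (h1 i t)
      have a2 := hc t
      have a3 := hc (t + 1)
      rw [abs_le] at a1
      constructor
      · intro h
        rw [abs_of_neg (by linarith)] at a3
        by_contra h'
        linarith
      · intro h
        rw [abs_of_neg (by linarith)] at a2
        by_contra h'
        linarith
  have main : ∀ i j k : Fin 3, i ≠ k → j ≠ k → f (r i T) ≤ f (r k T) → f (r k T) ≤ f (r j T) →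
      False := by
    intro i j k hik hjk hi hj
    have ci : ∀ t, L + C < |f (r i t) - f (r k T)| := fun t => by
      rw [abs_sub_comm]; exact hfar _ _ (hT k i hik.symm t)
    have cj : ∀ t, L + C < |f (r j t) - f (r k T)| := fun t => by
      rw [abs_sub_comm]; exact hfar _ _ (hT k j hjk.symm t)
    have si := side i _ ci T
    have sj := side j _ cj T
    have hLC : 0 < L + C := by linarith
    have hi' : f (r i T) < f (r k T) := by
      have := ci T
      rcases lt_or_eq_of_le hi with h | h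
      · exact h
      · rw [h, sub_self, abs_zero] at this
        linarith
    have hj' : ¬ f (r j T) < f (r k T) := not_lt.mpr hj
    have hi0 := si.mp hi'
    have hj0 : ¬ f (r j 0) < f (r k T) := fun h => hj' (sj.mpr h)
    have ci0 := ci 0
    have cj0 := cj 0
    rw [abs_of_neg (by linarith)] at ci0
    rw [abs_of_nonneg (by linarith)] at cj0
    have h := hstep _ _ (h2 i j)
    rw [abs_le] at h
    linarith
  rcases le_total (f (r 0 T)) (f (r 1 T)) with a | a <;>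
    rcases le_total (f (r 1 T)) (f (r 2 T)) with b | b <;>
    rcases le_total (f (r 0 T)) (f (r 2 T)) with c | c
  · exact main 0 2 1 (by decide) (by decide) a b
  · exact main 0 2 1 (by decide) (by decide) a b
  · exact main 0 1 2 (by decide) (by decide) c b
  · exact main 2 1 0 (by decide) (by decide) c a
  · exact main 1 2 0 (by decide) (by decide) a c
  · exact main 1 0 2 (by decide) (by decide) b c
  · exact main 2 0 1 (by decide) (by decide) b a
  · exact main 2 0 1 (by decide) (by decide) b a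

theorem dist_letter (v : V) (x : G v) (g : GP Γ G) :
    (elec Γ G).dist (g)⁻¹ (inc Γ G v x * g)⁻¹ ≤ 1 := by
  by_cases h : inc Γ G v x = 1
  · rw [h, one_mul, SimpleGraph.dist_self]; omega
  · have h1 : (inc Γ G v x)⁻¹ ≠ 1 := inv_ne_one.mpr h
    have h2 : (inc Γ G v x)⁻¹ ∈ gens Γ G := Or.inl ⟨v, x⁻¹, (map_inv _ _).symm⟩
    have := elec_adj_mul g⁻¹ h2 h1
    rw [← mul_inv_rev] at this
    rw [SimpleGraph.dist_eq_one_iff_adj.mpr this]

/-- tripods -/
theorem tripod {W : Set V} (h1 : ∀ u, ∃ w ∈ W, w ≠ u)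
    (h2 : ∀ Λ, MinSq Γ Λ → ∃ w ∈ W, w ∉ Λ) {l : ℕ} {L1 L2 : ℕ → Σ v, G v}
    (hL1 : Rigid Γ L1) (hL2 : Rigid Γ L2) (hr1 : Recur L1 W l) (hr2 : Recur L2 W l) {b : V}
    (hb1 : Γᶜ.Adj (L1 0).1 b) (hb2 : Γᶜ.Adj (L2 0).1 b) (hb1' : (L1 1).1 = b)
    (hb2' : (L2 1).1 = b) {e : G b} (he : e ≠ 1) (hne : L1 0 ≠ L2 0) :
    ¬ QuasiLine (elec Γ G) := by
  set β : GP Γ G := inc Γ G b e * 1 with hβ
  have hβ1 : inc Γ G b e⁻¹ * β = 1 := by rw [hβ, map_inv]; group
  have he' : e⁻¹ ≠ 1 := inv_ne_one.mpr he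
  -- early facts
  have e12 : ∀ t, Early L1 β (pos L2 β t) := early_branch hL1 hL2 hb1' hb2 hne β
  have e21 : ∀ t, Early L2 β (pos L1 β t) := early_branch hL2 hL1 hb2' hb1 hne.symm β
  have e13 : ∀ t, Early L1 β (pos L1 1 t) := by
    have := early_across hL1 hL1 hb1 hb1 he' β
    rwa [hβ1] at this
  have e23 : ∀ t, Early L2 β (pos L1 1 t) := by
    have := early_across hL2 hL1 hb2 hb1 he' β
    rwa [hβ1] at this
  have e31 : ∀ t, Early L1 (1 : GP Γ G) (pos L1 β t) := early_across hL1 hL1 hb1 hb1 he 1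
  have e32 : ∀ t, Early L1 (1 : GP Γ G) (pos L2 β t) := early_across hL1 hL2 hb1 hb2 he 1
  let r : Fin 3 → ℕ → GP Γ G := ![fun t => (pos L1 β t)⁻¹, fun t => (pos L2 β t)⁻¹,
    fun t => (pos L1 1 t)⁻¹]
  have hβd : (elec Γ G).dist (1 : GP Γ G)⁻¹ β⁻¹ ≤ 1 := dist_letter b e 1
  have hβd' : (elec Γ G).dist β⁻¹ (1 : GP Γ G)⁻¹ ≤ 1 := by rw [SimpleGraph.dist_comm]; exact hβd
  apply not_ql (elec Γ G) r
  · intro i n
    fin_cases i
    · exact dist_letter _ _ _
    · exact dist_letter _ _ _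
    · exact dist_letter _ _ _
  · intro i j
    fin_cases i <;> fin_cases j
    · show (elec Γ G).dist β⁻¹ β⁻¹ ≤ 1; rw [SimpleGraph.dist_self]; omega
    · show (elec Γ G).dist β⁻¹ β⁻¹ ≤ 1; rw [SimpleGraph.dist_self]; omega
    · exact hβd'
    · show (elec Γ G).dist β⁻¹ β⁻¹ ≤ 1; rw [SimpleGraph.dist_self]; omega
    · show (elec Γ G).dist β⁻¹ β⁻¹ ≤ 1; rw [SimpleGraph.dist_self]; omega
    · exact hβd'
    · exact hβd
    · exact hβd
    · show (elec Γ G).dist (1 : GP Γ G)⁻¹ (1 : GP Γ G)⁻¹ ≤ 1; rw [SimpleGraph.dist_self]; omega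
  · intro N
    refine ⟨2 + l * N, ?_⟩
    intro i j hij t
    have hT : 1 + l * N < 2 + l * N := by omega
    fin_cases i <;> fin_cases j
    · exact absurd rfl hij
    · exact dist_ge h1 h2 hL1 hr1 (e12 t) N hT
    · exact dist_ge h1 h2 hL1 hr1 (e13 t) N hT
    · exact dist_ge h1 h2 hL2 hr2 (e21 t) N hT
    · exact absurd rfl hij
    · exact dist_ge h1 h2 hL2 hr2 (e23 t) N hT
    · exact dist_ge h1 h2 hL1 hr1 (e31 t) N hT
    · exact dist_ge h1 h2 hL1 hr1 (e32 t) N hT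
    · exact absurd rfl hij

end Pool.R640.GE
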