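import Pool.Agent.R640.GE.Core

set_option autoImplicit false

namespace Pool.R640.GE

open Monoid

universe u w

variable {V : Type u} {Γ : SimpleGraph V} {G : V → Type w} [∀ v, Group (G v)]

theorem not_str {u v : V} (h : Γᶜ.Adj u v) : v ∉ str Γ u := by
  rw [SimpleGraph.compl_adj] at h
  rintro (h' | h')
  · exact h.2 h'
  · exact h.1 h'.symm

theorem not_str' {u v : V} (h : v ∉ str Γ u) : Γᶜ.Adj u v := by
  rw [SimpleGraph.compl_adj]
  exact ⟨fun h' => h (Or.inr h'.symm), fun h' => h (Or.inl h')⟩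

/-- positions along a sequence of letters -/
noncomputable def pos (L : ℕ → Σ v, G v) (p : GP Γ G) : ℕ → GP Γ G
  | 0 => p
  | n + 1 => inc Γ G (L n).1 (L n).2 * pos L p n

/-- the clique crossed at step `n` -/
noncomputable def hh (L : ℕ → Σ v, G v) (p : GP Γ G) (n : ℕ) : Clq Γ G :=
  cl Γ G (L n).1 (pos L p n)

theorem hh_ty (L : ℕ → Σ v, G v) (p : GP Γ G) (n : ℕ) : (hh L p n).ty = (L n).1 := rfl

variable (Γ) in
/-- rigid sequences -/
structure Rigid (L : ℕ → Σ v, G v) : Prop where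
  /-- nontrivial letters -/
  ne : ∀ n, (L n).2 ≠ 1
  /-- consecutive letters do not commute -/
  adj : ∀ n, Γᶜ.Adj (L n).1 (L (n + 1)).1

variable {L : ℕ → Σ v, G v} {p : GP Γ G}

/-- path lemma -/
theorem crd_path {C : Clq Γ G} {i k : ℕ} (hik : i ≤ k)
    (h : ∀ n, i ≤ n → n < k → hh L p n ≠ C) : crd C (pos L p k) = crd C (pos L p i) := by
  induction k, hik using Nat.le_induction with
  | base => rfl
  | succ k hk ih =>
    rw [← ih (fun n h1 h2 => h n h1 (by omega))]
    exact crd_ne (h k hk (by omega))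

/-- the nesting condition -/
def QP (L : ℕ → Σ v, G v) (p : GP Γ G) (i j : ℕ) : Prop :=
  (L j).1 ∈ str Γ (L i).1 → ∀ r ∈ par Γ G (str Γ (L j).1), ∀ s ∈ par Γ G (str Γ (L i).1),
    pos L p j ≠ r * (s * pos L p i)

theorem NC_of {i j : ℕ} (h : QP L p i j) : (hh L p j).ty ∈ str Γ (L i).1 →
    ∀ s ∈ par Γ G (str Γ (L i).1), cl Γ G (hh L p j).ty (s * pos L p i) ≠ hh L p j := by
  intro ht s hs he
  have he' : cl Γ G (L j).1 (s * pos L p i) = cl Γ G (L j).1 (pos L p j) := he
  rw [cl_eq] at he'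
  exact h ht _ he' s hs (by group)

theorem NC'_of {i j : ℕ} (h : QP L p i j) : (hh L p i).ty ∈ str Γ (L j).1 →
    ∀ s ∈ par Γ G (str Γ (L j).1), cl Γ G (hh L p i).ty (s * pos L p j) ≠ hh L p i := by
  intro ht s hs he
  have he' : cl Γ G (L i).1 (s * pos L p j) = cl Γ G (L i).1 (pos L p i) := he
  rw [cl_eq] at he'
  exact h (str_symm ht) _ (inv_mem hs) _ (inv_mem he') (by group)

theorem hh_ne_of {i j : ℕ} (h : QP L p i j) : hh L p i ≠ hh L p j := by
  intro he
  have ht : (L i).1 = (L j).1 := cl_type he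
  apply NC_of h (by rw [hh_ty, ht]; exact self_mem_str _) 1 (one_mem _)
  rw [one_mul, ← he]
  rfl

theorem QP_all (hL : Rigid Γ L) : ∀ j i, i < j → QP L p i j := by
  intro j
  induction j using Nat.strong_induction_on with
  | _ j ih =>
    intro i hij ht r hr s hs he
    rcases Nat.lt_or_ge (i + 1) j with h | h
    · obtain ⟨k, rfl⟩ : ∃ k, j = k + 1 := ⟨j - 1, by omega⟩
      have hik : i < k := by omega
      have hC : (hh L p k).ty ∉ str Γ (L (k + 1)).1 := by
        rw [hh_ty]
        exact not_str (hL.adj k).symm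
      have h1 : crd (hh L p k) (pos L p (k + 1)) = crd (hh L p k) (s * pos L p i) := by
        rw [he]
        exact crd_par hC hr _
      have h2 : crd (hh L p k) (s * pos L p i) = crd (hh L p k) (pos L p i) :=
        crd_car (NC_of (ih k (by omega) i hik)) hs
      have h3 : crd (hh L p k) (pos L p k) = crd (hh L p k) (pos L p i) :=
        crd_path hik.le (fun n _ hn => hh_ne_of (ih k (by omega) n hn))
      exact crd_self_ne (hL.ne k) (C := hh L p k) rfl (h1.trans (h2.trans h3.symm))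
    · have hj : j = i + 1 := by omega
      subst hj
      exact not_str (hL.adj i) ht

theorem hh_ne (hL : Rigid Γ L) {i j : ℕ} (h : i ≠ j) : hh L p i ≠ hh L p j := by
  rcases Nat.lt_or_gt_of_ne h with h | h
  · exact hh_ne_of (QP_all hL j i h)
  · exact (hh_ne_of (QP_all hL i j h)).symm

theorem crd_le (hL : Rigid Γ L) {k n : ℕ} (h : n ≤ k) :
    crd (hh L p k) (pos L p n) = crd (hh L p k) (pos L p k) :=
  (crd_path h (fun m _ hm => hh_ne hL (by omega))).symm

theorem crd_gt (hL : Rigid Γ L) {k n : ℕ} (h : k < n) :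
    crd (hh L p k) (pos L p n) = ms (L k).1 (L k).2 * crd (hh L p k) (pos L p k) := by
  rw [crd_path (L := L) (p := p) (i := k + 1) (k := n) h (fun m hm _ => hh_ne hL (by omega))]
  exact crd_self _ _ _

theorem crd_gt_ne (hL : Rigid Γ L) {k n : ℕ} (h : k < n) :
    crd (hh L p k) (pos L p n) ≠ crd (hh L p k) (pos L p k) := by
  rw [crd_gt hL h]
  intro h
  exact ms_ne (hL.ne k) (mul_eq_right.mp h)

/-- at a point of clique `hh k` the coordinate of `hh j`, `j < k`, is the late one -/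
theorem at_gt (hL : Rigid Γ L) {j k : ℕ} (h : j < k) {q : GP Γ G}
    (hq : cl Γ G (L k).1 q = hh L p k) : crd (hh L p j) q ≠ crd (hh L p j) (pos L p j) := by
  have hq' : cl Γ G (L k).1 q = cl Γ G (L k).1 (pos L p k) := hq
  rw [eq_comm, cl_eq] at hq'
  have h1 := crd_car (C := hh L p j) (NC'_of (QP_all (p := p) hL k j h)) hq'
  rw [inv_mul_cancel_right] at h1
  rw [h1]
  exact crd_gt_ne hL h

/-- at a point of clique `hh i` the coordinate of `hh j`, `i < j`, is the early one -/
theorem at_lt (hL : Rigid Γ L) {i j : ℕ} (h : i < j) {q : GP Γ G}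
    (hq : cl Γ G (L i).1 q = hh L p i) : crd (hh L p j) q = crd (hh L p j) (pos L p j) := by
  have hq' : cl Γ G (L i).1 q = cl Γ G (L i).1 (pos L p i) := hq
  rw [eq_comm, cl_eq] at hq'
  have h1 := crd_car (C := hh L p j) (NC_of (QP_all (p := p) hL j i h)) hq'
  rw [inv_mul_cancel_right] at h1
  rw [h1]
  exact crd_le hL h.le

/-- a segment avoiding type `(L j).1` cannot change coordinates on both sides of `j` -/
theorem seg (hL : Rigid Γ L) {i j k : ℕ} (hij : i < j) (hjk : j < k) {Λ : Set V}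
    (hΛ : (L j).1 ∉ Λ) {s : GP Γ G} (hs : s ∈ par Γ G Λ) (g : GP Γ G)
    (h1 : crd (hh L p i) (s * g) ≠ crd (hh L p i) g)
    (h2 : crd (hh L p k) (s * g) ≠ crd (hh L p k) g) : False := by
  obtain ⟨t, ht, ht2⟩ := cross hs g h1
  obtain ⟨t', ht', ht2'⟩ := cross hs g h2
  have a1 : crd (hh L p j) (t * g) = crd (hh L p j) (pos L p j) := at_lt hL hij ht2
  have a2 : crd (hh L p j) (t' * g) ≠ crd (hh L p j) (pos L p j) := at_gt hL hjk ht2'
  rw [crd_par (C := hh L p j) hΛ ht g] at a1
  rw [crd_par (C := hh L p j) hΛ ht' g] at a2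
  exact a2 a1

/-- changed representatives -/
def Dset (L : ℕ → Σ v, G v) (p : GP Γ G) (l : ℕ) (a b : GP Γ G) : Set ℕ :=
  {t | crd (hh L p (1 + l * t)) a ≠ crd (hh L p (1 + l * t)) b}

/-- recurrence of the letters of `W` with window `l` -/
def Recur (L : ℕ → Σ v, G v) (W : Set V) (l : ℕ) : Prop :=
  0 < l ∧ ∀ v ∈ W, ∀ n, ∃ j, n < j ∧ j < n + l ∧ (L j).1 = v

theorem Dset_seg (hL : Rigid Γ L) {W : Set V} {l : ℕ} (hr : Recur L W l) {Λ : Set V}
    {v : V} (hv : v ∈ W) (hΛ : v ∉ Λ) {s : GP Γ G} (hs : s ∈ par Γ G Λ) (g : GP Γ G) :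
    (Dset L p l (s * g) g).encard ≤ 1 := by
  rw [Set.encard_le_one_iff]
  have key : ∀ a b, a ∈ Dset L p l (s * g) g → b ∈ Dset L p l (s * g) g → ¬ a < b := by
    intro a b ha hb hab
    obtain ⟨j, h1, h2, h3⟩ := hr.2 v hv (1 + l * a)
    have h4 : l * a + l ≤ l * b := by
      calc l * a + l = l * (a + 1) := by ring
        _ ≤ l * b := Nat.mul_le_mul_left l hab
    exact seg hL (p := p) h1 (by omega : j < 1 + l * b) (by rw [h3]; exact hΛ) hs g ha hb
  intro a b ha hb
  rcases lt_trichotomy a b with h | h | h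
  · exact absurd h (key a b ha hb)
  · exact h
  · exact absurd h (key b a hb ha)

theorem Dset_trans (l : ℕ) (a b c : GP Γ G) :
    (Dset L p l a c).encard ≤ (Dset L p l a b).encard + (Dset L p l b c).encard := by
  refine le_trans (Set.encard_le_encard ?_) (Set.encard_union_le _ _)
  intro t ht
  by_contra h
  rw [Set.mem_union, not_or] at h
  have h1 : crd (hh L p (1 + l * t)) a = crd (hh L p (1 + l * t)) b := not_not.mp h.1
  have h2 : crd (hh L p (1 + l * t)) b = crd (hh L p (1 + l * t)) c := not_not.mp h.2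
  exact ht (h1.trans h2)

theorem Dset_symm (l : ℕ) (a b : GP Γ G) : Dset L p l a b = Dset L p l b a := by
  ext t
  exact ne_comm

/-- first letter lemma -/
theorem first_lem (hL : Rigid Γ L) {b : V} (hb : Γᶜ.Adj (L 0).1 b) (n : ℕ) :
    crd (cl Γ G b p) (pos L p n) = crd (cl Γ G b p) p := by
  refine crd_path (L := L) (p := p) (i := 0) (k := n) (Nat.zero_le n) ?_
  intro k _ _ he
  have ht : (L k).1 = b := cl_type he
  rcases Nat.eq_zero_or_pos k with h | h
  · subst h
    exact hb.ne ht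
  · have he' : cl Γ G b (pos L p k) = cl Γ G b p := by rw [← he, ← ht]; rfl
    rw [eq_comm, cl_eq] at he'
    have h0 : (hh L p 0).ty ∉ str Γ b := not_str hb.symm
    have h1 := crd_par (C := hh L p 0) h0 he' p
    rw [inv_mul_cancel_right] at h1
    exact crd_gt_ne hL h h1

/-- If a path of letters never crosses `hh L p i`, and starts on the early side, then it never
crosses the later cliques. -/
theorem never (hL : Rigid Γ L) {M : ℕ → Σ v, G v} {q : GP Γ G} {i : ℕ}
    (h0 : crd (hh L p i) q = crd (hh L p i) (pos L p i))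
    (h : ∀ n, hh M q n ≠ hh L p i) {j : ℕ} (hj : i ≤ j) (n : ℕ) :
    crd (hh L p j) (pos M q n) = crd (hh L p j) q := by
  refine crd_path (L := M) (p := q) (i := 0) (k := n) (Nat.zero_le n) ?_
  intro k _ _ he
  rcases Nat.eq_or_lt_of_le hj with hj | hj
  · subst hj
    exact h k he
  · have h1 : crd (hh L p i) (pos M q k) = crd (hh L p i) q :=
      crd_path (L := M) (p := q) (i := 0) (k := k) (Nat.zero_le k) (fun m _ _ => h m)
    have ht : (M k).1 = (L j).1 := cl_type he
    have h2 : cl Γ G (L j).1 (pos M q k) = hh L p j := by rw [← he, ← ht]; rfl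
    exact at_gt hL hj h2 (h1.trans h0)

end Pool.R640.GE
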